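import Pool.Agent.N990.Slab.Defs

/-! # Matrix lemmas: Frobenius norm, real inner product -/

open MeasureTheory Matrix
open scoped Matrix.Norms.Frobenius

namespace Pool.Agent.N990

noncomputable section

variable {N : ℕ} {G : Subgroup (UU N)}

/-- real inner product -/
def ip (A B : Mt N) : ℝ := (trace (Aᴴ * B)).re

lemma ip_self (A : Mt N) : ip A A = ‖A‖ ^ 2 := by
  unfold ip
  rw [Matrix.frobenius_norm_def]
  rw [← Real.rpow_natCast, ← Real.rpow_mul (by positivity)]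
  norm_num
  simp only [Matrix.trace, Matrix.diag, Matrix.mul_apply, Matrix.conjTranspose_apply]
  rw [Complex.re_sum, Finset.sum_comm]
  refine Finset.sum_congr rfl fun i _ => ?_
  rw [Complex.re_sum]
  refine Finset.sum_congr rfl fun j _ => ?_
  rw [← Complex.normSq_eq_norm_sq, Complex.normSq_apply]
  simp

lemma ip_add_left (A B C : Mt N) : ip (A + B) C = ip A C + ip B C := by
  unfold ip; rw [conjTranspose_add, add_mul, trace_add, Complex.add_re]

lemma ip_add_right (A B C : Mt N) : ip A (B + C) = ip A B + ip A C := by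
  unfold ip; rw [mul_add, trace_add, Complex.add_re]

lemma ip_neg_right (A B : Mt N) : ip A (-B) = -ip A B := by
  unfold ip; rw [mul_neg, trace_neg, Complex.neg_re]

lemma ip_neg_left (A B : Mt N) : ip (-A) B = -ip A B := by
  unfold ip; rw [conjTranspose_neg, neg_mul, trace_neg, Complex.neg_re]

lemma ip_sub_right (A B C : Mt N) : ip A (B - C) = ip A B - ip A C := by
  rw [sub_eq_add_neg, ip_add_right, ip_neg_right, sub_eq_add_neg]

lemma ip_sub_left (A B C : Mt N) : ip (A - B) C = ip A C - ip B C := by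
  rw [sub_eq_add_neg, ip_add_left, ip_neg_left, sub_eq_add_neg]

lemma ip_smul_right (c : ℝ) (A B : Mt N) : ip A (c • B) = c * ip A B := by
  unfold ip
  rw [Matrix.mul_smul, trace_smul, Complex.real_smul, Complex.re_ofReal_mul]

lemma ip_smul_left (c : ℝ) (A B : Mt N) : ip (c • A) B = c * ip A B := by
  unfold ip
  rw [conjTranspose_smul, star_trivial, Matrix.smul_mul, trace_smul, Complex.real_smul,
    Complex.re_ofReal_mul]

lemma ip_zero_right (A : Mt N) : ip A 0 = 0 := by unfold ip; simp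

lemma ip_zero_left (A : Mt N) : ip 0 A = 0 := by unfold ip; simp

lemma ip_comm (A B : Mt N) : ip A B = ip B A := by
  have h1 : ip (A + B) (A + B) = ip (B + A) (B + A) := by rw [add_comm]
  unfold ip
  have h2 : (trace (Aᴴ * B)) = star (trace (Bᴴ * A)) := by
    rw [← trace_conjTranspose, conjTranspose_mul, conjTranspose_conjTranspose]
  rw [h2]; simp

lemma ip_le (A B : Mt N) : |ip A B| ≤ ‖A‖ * ‖B‖ := by
  have h : ∀ t : ℝ, 0 ≤ ‖A‖ ^ 2 * (t * t) + 2 * ip A B * t + ‖B‖ ^ 2 := by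
    intro t
    have h1 : ip (t • A + B) (t • A + B) = ‖A‖ ^ 2 * (t * t) + 2 * ip A B * t + ‖B‖ ^ 2 := by
      rw [ip_add_left, ip_add_right, ip_add_right, ip_smul_left, ip_smul_left, ip_smul_right,
        ip_smul_right, ip_self, ip_self, ip_comm B A]
      ring
    rw [← h1, ip_self]; positivity
  have h2 := discrim_le_zero h
  unfold discrim at h2
  have h3 : ip A B ^ 2 ≤ (‖A‖ * ‖B‖) ^ 2 := by nlinarith
  exact abs_le_of_sq_le_sq h3 (by positivity)
  
lemma norm_sq_add (A B : Mt N) : ‖A + B‖ ^ 2 = ‖A‖ ^ 2 + 2 * ip A B + ‖B‖ ^ 2 := by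
  rw [← ip_self, ip_add_left, ip_add_right, ip_add_right, ip_self, ip_self, ip_comm B A]
  ring

lemma ip_sum_left {ι : Type*} (s : Finset ι) (f : ι → Mt N) (B : Mt N) :
    ip (∑ i ∈ s, f i) B = ∑ i ∈ s, ip (f i) B := by
  classical
  induction s using Finset.induction_on with
  | empty => simp [ip_zero_left]
  | insert a s ha ih => rw [Finset.sum_insert ha, Finset.sum_insert ha, ip_add_left, ih]

lemma ip_sum_right {ι : Type*} (s : Finset ι) (f : ι → Mt N) (B : Mt N) :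
    ip B (∑ i ∈ s, f i) = ∑ i ∈ s, ip B (f i) := by
  classical
  induction s using Finset.induction_on with
  | empty => simp [ip_zero_right]
  | insert a s ha ih => rw [Finset.sum_insert ha, Finset.sum_insert ha, ip_add_right, ih]

lemma mt_star_mul (g : G) : (mt g)ᴴ * mt g = 1 :=
  Matrix.mem_unitaryGroup_iff'.1 (g : UU N).2

lemma mt_mul_star (g : G) : mt g * (mt g)ᴴ = 1 :=
  Matrix.mem_unitaryGroup_iff.1 (g : UU N).2

@[simp] lemma mt_one : mt (1 : G) = 1 := rfl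

@[simp] lemma mt_mul (g h : G) : mt (g * h) = mt g * mt h := rfl

@[simp] lemma mt_inv (g : G) : mt (g⁻¹) = (mt g)ᴴ := rfl

lemma norm_mul_mt (A : Mt N) (g : G) : ‖A * mt g‖ = ‖A‖ := by
  have h : ‖A * mt g‖ ^ 2 = ‖A‖ ^ 2 := by
    rw [← ip_self, ← ip_self]
    unfold ip
    congr 1
    rw [conjTranspose_mul, Matrix.mul_assoc, ← Matrix.mul_assoc Aᴴ, trace_mul_comm,
      Matrix.mul_assoc, mt_mul_star, Matrix.mul_one]
  have h1 : (0 : ℝ) ≤ ‖A * mt g‖ := norm_nonneg _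
  have h2 : (0 : ℝ) ≤ ‖A‖ := norm_nonneg _
  nlinarith [sq_nonneg (‖A * mt g‖ - ‖A‖), sq_nonneg (‖A * mt g‖ + ‖A‖)]

lemma norm_mt_mul (A : Mt N) (g : G) : ‖mt g * A‖ = ‖A‖ := by
  have h : ‖mt g * A‖ ^ 2 = ‖A‖ ^ 2 := by
    rw [← ip_self, ← ip_self]
    unfold ip
    congr 1
    rw [conjTranspose_mul, Matrix.mul_assoc, ← Matrix.mul_assoc (mt g)ᴴ, mt_star_mul,
      Matrix.one_mul]
  have h1 : (0 : ℝ) ≤ ‖mt g * A‖ := norm_nonneg _
  have h2 : (0 : ℝ) ≤ ‖A‖ := norm_nonneg _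
  nlinarith [sq_nonneg (‖mt g * A‖ - ‖A‖), sq_nonneg (‖mt g * A‖ + ‖A‖)]

lemma norm_one_sq : ‖(1 : Mt N)‖ ^ 2 = N := by
  rw [← ip_self]; unfold ip; simp

lemma norm_mt_sq (g : G) : ‖mt g‖ ^ 2 = N := by
  rw [← mul_one (mt g), norm_mt_mul, norm_one_sq]

lemma norm_mt_sub_one_sq (g : G) : ‖mt g - 1‖ ^ 2 ≤ 4 * N := by
  have h1 : ‖mt g - 1‖ ≤ ‖mt g‖ + ‖(1 : Mt N)‖ := norm_sub_le _ _
  have h2 := norm_mt_sq g
  have h3 := norm_one_sq (N := N)
  have h4 : ‖mt g‖ = ‖(1 : Mt N)‖ := by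
    rw [← mul_one (mt g), norm_mt_mul]
  rw [h4] at h1
  have h5 := norm_nonneg (mt g - 1)
  nlinarith

end

end Pool.Agent.N990
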