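import Pool.Agent.N990.Slab.Grp

/-!
# Decay of the influence of the boundary condition in the slab, axial gauge
-/

set_option autoImplicit false
set_option linter.unusedSectionVars false

open MeasureTheory Matrix
open scoped Matrix.Norms.Frobenius Classical ENNReal
open Pool.Agent.N986.PB

namespace Pool.Agent.N990

noncomputable section

open Pool.Agent.N990.Mach

variable {N D L : ℕ} {G : Subgroup (UU N)} [MeasurableSpace G] [BorelSpace G]

/-- the weight of the finite volume `V` -/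
def wS (β : ℝ) (V : Finset (Site D)) (σ : Site D → Lab D L → G) : ℝ≥0∞ :=
  ENNReal.ofReal (Real.exp (-(β * ∑ x ∈ Ns V, hx σ x)))

/-- rates below the mass gap of the quadratic theory leave room for a larger rate -/
lemma exists_rate {lam m : ℝ} (hm : 0 ≤ m) (h : 2 * Real.cosh m - 2 < lam) :
    ∃ α, m < α ∧ 2 * Real.cosh α - 2 < lam := by
  have hc : ContinuousAt (fun α : ℝ => 2 * Real.cosh α - 2) m := by fun_prop
  have h1 : ∀ᶠ α in nhds m, 2 * Real.cosh α - 2 < lam := hc.eventually_lt continuousAt_const h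
  obtain ⟨ε, hε, h2⟩ := Metric.eventually_nhds_iff.1 h1
  refine ⟨m + ε / 2, by linarith, h2 ?_⟩
  rw [Real.dist_eq, add_sub_cancel_left, abs_of_pos (by positivity)]
  linarith

instance smul_pi (μ : Measure G) [SigmaFinite μ] [μ.IsMulLeftInvariant] :
    (Measure.pi fun _ : Lab D L => μ).IsMulLeftInvariant := inferInstance

/-- **Decay of the influence of the boundary condition.** -/
theorem slab_infl (hG : IsClosed (G : Set (UU N))) (μ : Measure G) [IsProbabilityMeasure μ]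
    [μ.IsMulLeftInvariant] {m : ℝ} (hm : 0 ≤ m) (h : 2 * Real.cosh m - 2 < lam0 L) :
    ∃ β₀ ≥ (1 : ℝ), ∀ β ≥ β₀, ∃ C : ℝ, 0 < C ∧
      ∀ (V A : Finset (Site D)) (r : ℕ), (∀ a ∈ A, ∀ y ∉ V, r < dd a y) →
        ∀ f : (Site D → Lab D L → G) → ℝ≥0∞, Measurable f → (∀ φ, f φ ≤ 1) →
        (∀ φ φ' : Site D → Lab D L → G, (∀ a ∈ A, φ a = φ' a) → f φ = f φ') →
        ∀ ψ ψ' : Site D → Lab D L → G,
          Pool.Agent.N986.PB.ev (Measure.pi fun _ : Lab D L => μ) (wS β V) V f ψ ≤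
            Pool.Agent.N986.PB.ev (Measure.pi fun _ : Lab D L => μ) (wS β V) V f ψ' +
              A.card * ENNReal.ofReal (C * Real.exp (-(m * r))) := by
  obtain ⟨α, hmα, hα⟩ := exists_rate hm h
  have hα0 : 0 < α := lt_of_le_of_lt hm hmα
  have hL : 0 < lam0 L := by
    have := Real.one_le_cosh m
    linarith
  obtain ⟨X⟩ := exists_lieG hG
  obtain ⟨cv, hcv, nv, hnv, hvol⟩ := vol_pi (D := D) (L := L) μ
  obtain ⟨β₀, hβ₀, h1⟩ := sharp (c := cstS X D L α cv nv hL hα0 hcv hnv)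
    (ν := Measure.pi fun _ : Lab D L => μ) (Y := Lab D L → Mt N) (V := Lab D L → X.g)
    ratioAll hm hmα
  refine ⟨β₀, hβ₀, fun β hβ => ?_⟩
  obtain ⟨C, hC, h2⟩ := h1 β hβ
  refine ⟨C, hC, fun V A r hA f hf hf1 hfA ψ ψ' => ?_⟩
  have h3 := h2 (Site D) (Site D) (sysS μ X hL hα0 hα hcv hnv hvol V) V A r subset_rfl hA f hf hf1
    hfA ψ ψ'
  have e : (sysS μ X hL hα0 hα hcv hnv hvol V).w β = wS β V := rfl
  rw [e] at h3
  refine (le_of_eq ?_).trans (h3.trans (le_of_eq ?_))
  · congr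
  · congr

end

end Pool.Agent.N990
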