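import Pool.Agent.N990.Slab.En

/-! # Sharp vertical coercivity -/

open MeasureTheory Matrix
open scoped Matrix.Norms.Frobenius

namespace Pool.Agent.N990

noncomputable section

/-- the lowest eigenvalue of the vertical Laplacian (frozen below, free above) -/
def lam0 (L : ℕ) : ℝ := 2 - 2 * Real.cos (Real.pi / (2 * L + 1))

lemma th_pos (L : ℕ) : 0 < Real.pi / (2 * L + 1) := by
  have := Real.pi_pos; positivity

lemma sin_pos' {L s : ℕ} (h1 : 1 ≤ s) (h2 : s ≤ L) :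
    0 < Real.sin (s * (Real.pi / (2 * L + 1))) := by
  have hp := Real.pi_pos
  have h3 : (1 : ℝ) ≤ s := by exact_mod_cast h1
  have h4 : (s : ℝ) ≤ L := by exact_mod_cast h2
  refine Real.sin_pos_of_pos_of_lt_pi (by positivity) ?_
  rw [← mul_div_assoc, div_lt_iff₀ (by positivity)]
  nlinarith

/-- two term inequality -/
lemma two_term {a b p q : ℝ} (hp : 0 < p) (hq : 0 < q) :
    a ^ 2 * (1 - p / q) + b ^ 2 * (1 - q / p) ≤ (a - b) ^ 2 := by
  have h : (a - b) ^ 2 - (a ^ 2 * (1 - p / q) + b ^ 2 * (1 - q / p)) =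
      (a * p - b * q) ^ 2 / (p * q) := by
    field_simp; ring
  have h2 : 0 ≤ (a * p - b * q) ^ 2 / (p * q) := by positivity
  linarith

lemma aux1 {a b c q : ℝ} (hq : q ≠ 0) (h : a + b = 2 * c * q) :
    (1 - b / q) + (1 - a / q) = 2 - 2 * c := by
  field_simp; linarith

lemma aux2 {b c q : ℝ} (hq : q ≠ 0) (h : q + b = 2 * c * q) : 1 - b / q = 2 - 2 * c := by
  field_simp; linarith

/-- sharp Hardy type inequality on the segment -/
lemma hardy_nat (L : ℕ) (f : ℕ → ℝ) (h0 : f 0 = 0) (n : ℕ) (hn : n + 1 ≤ L) :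
    lam0 L * ∑ s ∈ Finset.range n, f (s + 1) ^ 2 +
      f (n + 1) ^ 2 * (1 - Real.sin (n * (Real.pi / (2 * L + 1))) /
        Real.sin ((n + 1 : ℕ) * (Real.pi / (2 * L + 1)))) ≤
    ∑ s ∈ Finset.range (n + 1), (f (s + 1) - f s) ^ 2 := by
  induction n with
  | zero => simp [h0]
  | succ n ih =>
    have ih' := ih (by omega)
    rw [Finset.sum_range_succ (fun s => (f (s + 1) - f s) ^ 2) (n + 1)]
    rw [Finset.sum_range_succ (fun s => f (s + 1) ^ 2) n]
    set θ := Real.pi / (2 * L + 1) with hθ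
    have hp := sin_pos' (L := L) (s := n + 1) (by omega) (by omega)
    have hq := sin_pos' (L := L) (s := n + 2) (by omega) (by omega)
    rw [← hθ] at hp hq
    have h2 := two_term (a := f (n + 1 + 1)) (b := f (n + 1)) hp hq
    have hrec : Real.sin ((n + 2 : ℕ) * θ) + Real.sin (n * θ) =
        2 * Real.cos θ * Real.sin ((n + 1 : ℕ) * θ) := by
      have e1 : ((n + 2 : ℕ) : ℝ) * θ = ((n + 1 : ℕ) : ℝ) * θ + θ := by push_cast; ring
      have e2 : (n : ℝ) * θ = ((n + 1 : ℕ) : ℝ) * θ - θ := by push_cast; ring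
      rw [e1, e2, Real.sin_add, Real.sin_sub]; ring
    have h3 : (1 - Real.sin (n * θ) / Real.sin ((n + 1 : ℕ) * θ)) +
        (1 - Real.sin ((n + 2 : ℕ) * θ) / Real.sin ((n + 1 : ℕ) * θ)) = lam0 L := by
      unfold lam0
      rw [← hθ]
      exact aux1 hp.ne' hrec
    have h4 : f (n + 1) ^ 2 * (1 - Real.sin (n * θ) / Real.sin ((n + 1 : ℕ) * θ)) +
        f (n + 1) ^ 2 * (1 - Real.sin ((n + 2 : ℕ) * θ) / Real.sin ((n + 1 : ℕ) * θ)) =
        lam0 L * f (n + 1) ^ 2 := by rw [← mul_add, h3]; ring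
    have e : ((n + 1 + 1 : ℕ) : ℝ) = ((n + 2 : ℕ) : ℝ) := by push_cast; ring
    rw [e]
    linarith

lemma hardy (L : ℕ) (f : ℕ → ℝ) (h0 : f 0 = 0) :
    lam0 L * ∑ s ∈ Finset.range L, f (s + 1) ^ 2 ≤
    ∑ s ∈ Finset.range L, (f (s + 1) - f s) ^ 2 := by
  rcases Nat.eq_zero_or_pos L with h | h
  · subst h; simp
  · obtain ⟨n, rfl⟩ : ∃ n, L = n + 1 := ⟨L - 1, by omega⟩
    refine le_trans ?_ (hardy_nat (n + 1) f h0 n le_rfl)
    rw [Finset.sum_range_succ]
    set θ := Real.pi / (2 * ((n + 1 : ℕ) : ℝ) + 1) with hθ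
    have hp := sin_pos' (L := n + 1) (s := n + 1) (by omega) (by omega)
    rw [← hθ] at hp
    have hrec : Real.sin ((n + 1 : ℕ) * θ) + Real.sin (n * θ) =
        2 * Real.cos θ * Real.sin ((n + 1 : ℕ) * θ) := by
      have e1 : Real.sin ((n + 1 : ℕ) * θ) = Real.sin (((n + 1 : ℕ) : ℝ) * θ + θ) := by
        rw [← Real.sin_pi_sub]
        congr 1
        have : Real.pi = (2 * ((n + 1 : ℕ) : ℝ) + 1) * θ := by
          rw [hθ]; field_simp
        rw [this]; push_cast; ring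
      have e2 : (n : ℝ) * θ = ((n + 1 : ℕ) : ℝ) * θ - θ := by push_cast; ring
      conv_lhs => rw [e1]
      rw [e2, Real.sin_add, Real.sin_sub]; ring
    have h3 : 1 - Real.sin (n * θ) / Real.sin ((n + 1 : ℕ) * θ) = lam0 (n + 1) := by
      unfold lam0
      rw [← hθ]
      exact aux2 hp.ne' hrec
    rw [h3]
    apply le_of_eq; ring

/-- coercivity for functions on `Fin L` -/
lemma hardy_fin (L : ℕ) (f : Fin L → ℝ) :
    lam0 L * ∑ s, f s ^ 2 ≤
      ∑ s : Fin L, (f s - if h : (s : ℕ) = 0 then 0 else f ⟨(s : ℕ) - 1, by omega⟩) ^ 2 := by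
  have h := hardy L (fun s => if h : 1 ≤ s ∧ s ≤ L then f ⟨s - 1, by omega⟩ else 0) (by simp)
  have e1 : ∑ s ∈ Finset.range L, (if h : 1 ≤ s + 1 ∧ s + 1 ≤ L then f ⟨s + 1 - 1, by omega⟩
      else 0) ^ 2 = ∑ s, f s ^ 2 := by
    rw [Finset.sum_range]
    refine Finset.sum_congr rfl fun s _ => ?_
    rw [dif_pos ⟨by omega, by omega⟩]
    rfl
  have e2 : ∑ s ∈ Finset.range L, ((if h : 1 ≤ s + 1 ∧ s + 1 ≤ L then f ⟨s + 1 - 1, by omega⟩
      else 0) - (if h : 1 ≤ s ∧ s ≤ L then f ⟨s - 1, by omega⟩ else 0)) ^ 2 =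
      ∑ s : Fin L, (f s - if h : (s : ℕ) = 0 then 0 else f ⟨(s : ℕ) - 1, by omega⟩) ^ 2 := by
    rw [Finset.sum_range]
    refine Finset.sum_congr rfl fun s _ => ?_
    rw [dif_pos ⟨by omega, by omega⟩]
    by_cases hs : (s : ℕ) = 0
    · rw [dif_pos hs, dif_neg (by omega)]; rfl
    · rw [dif_neg hs, dif_pos ⟨by omega, by omega⟩]; rfl
  rw [e1, e2] at h
  exact h

/-- sharp vertical coercivity for fields with values in a normed group -/
lemma vc {E : Type*} [NormedAddCommGroup E] {D L : ℕ} (φ : Lab D L → E) :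
    lam0 L * ∑ a, ‖φ a‖ ^ 2 ≤ ∑ a, ‖φ a - low φ a‖ ^ 2 := by
  rw [Fintype.sum_prod_type, Fintype.sum_prod_type, Finset.mul_sum]
  refine Finset.sum_le_sum fun i _ => ?_
  refine (hardy_fin L fun s => ‖φ (i, s)‖).trans (Finset.sum_le_sum fun s _ => ?_)
  unfold low
  simp only
  split_ifs with h
  · simp
  · have := abs_norm_sub_norm_le (φ (i, s)) (φ (i, ⟨(s : ℕ) - 1, by omega⟩))
    exact sq_le_sq' (by linarith [(abs_le.1 this).1]) (abs_le.1 this).2

lemma vcN (N D L : ℕ) : VC (lam0 L) N D L := fun φ => vc φ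

lemma lam0_pos {L : ℕ} (hL : 1 ≤ L) : 0 < lam0 L := by
  unfold lam0
  have h1 := th_pos L
  have h2 : Real.pi / (2 * L + 1) < Real.pi := by
    rw [div_lt_iff₀ (by positivity)]
    have := Real.pi_pos
    have h3 : (1 : ℝ) ≤ L := by exact_mod_cast hL
    nlinarith
  have h3 := Real.cos_lt_cos_of_nonneg_of_le_pi (le_refl 0) h2.le h1
  rw [Real.cos_zero] at h3
  linarith

end

end Pool.Agent.N990
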