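import Pool.Agent.N990.Slab.Vert

/-! # Harmonic extension with exponential decay (Combes-Thomas) -/

open MeasureTheory Matrix

namespace Pool.Agent.N990

set_option linter.unusedSectionVars false

noncomputable section

variable {D L : ℕ}

/-- base points of the terms touching `A` -/
def Ns (A : Finset (Site D)) : Finset (Site D) := by
  classical exact A ∪ Finset.univ.biUnion fun i : Fin D => A.image fun x => x - ev i

lemma mem_Ns {A : Finset (Site D)} {x : Site D} : x ∈ Ns A ↔ x ∈ A ∨ ∃ i, x + ev i ∈ A := by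
  classical
  unfold Ns
  simp only [Finset.mem_union, Finset.mem_biUnion, Finset.mem_univ, true_and, Finset.mem_image]
  constructor
  · rintro (h | ⟨i, y, hy, rfl⟩)
    · exact Or.inl h
    · exact Or.inr ⟨i, by simpa using hy⟩
  · rintro (h | ⟨i, h⟩)
    · exact Or.inl h
    · exact Or.inr ⟨i, _, h, by simp⟩

section lin

variable {E : Type*} [AddCommGroup E] [Module ℝ E]

lemma low_zero {F : Type*} [Zero F] (φ : Lab D L → F) (h : ∀ a, φ a = 0) (a : Lab D L) :
    low φ a = 0 := by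
  unfold low; split_ifs <;> simp [h]

lemma dv_zero {F : Type*} [AddGroup F] {χ : Site D → Lab D L → F} {x : Site D} (h : χ x = 0)
    (a : Lab D L) : dv χ x a = 0 := by
  unfold dv
  rw [low_zero _ (fun b => by rw [h]; rfl), h]; simp

lemma dp_zero {χ : Site D → Lab D L → E} {x : Site D} (h : χ x = 0)
    (h' : ∀ i, χ (x + ev i) = 0) (p : (Fin D × Fin D) × Fin L) : dp χ x p = 0 := by
  unfold dp
  rw [h, h', h']; simp

lemma bx_zero {χ : Site D → Lab D L → ℝ} {φ : Site D → Lab D L → E} {x : Site D} (h : χ x = 0)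
    (h' : ∀ i, χ (x + ev i) = 0) : bx χ φ x = 0 := by
  unfold bx
  rw [Finset.sum_eq_zero, Finset.sum_eq_zero, add_zero]
  · intro p _; rw [dp_zero h h', zero_smul]
  · intro a _; rw [dv_zero h, zero_smul]

lemma bx_sum_eq {A P : Finset (Site D)} (hP : Ns A ⊆ P) {χ : Site D → Lab D L → ℝ}
    (hχ : ∀ x, x ∉ A → χ x = 0) (φ : Site D → Lab D L → E) :
    ∑ x ∈ P, bx χ φ x = ∑ x ∈ Ns A, bx χ φ x := by
  symm
  refine Finset.sum_subset hP fun x _ hx => ?_
  rw [mem_Ns, not_or, not_exists] at hx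
  exact bx_zero (hχ x hx.1) fun i => hχ _ (hx.2 i)

lemma harm_iff {A : Finset (Site D)} {φ : Site D → Lab D L → E} :
    Harm A φ ↔ ∀ χ : Site D → Lab D L → ℝ, (∀ x, x ∉ A → χ x = 0) →
      ∑ x ∈ Ns A, bx χ φ x = 0 := by
  constructor
  · intro h χ hχ
    exact h χ hχ (Ns A) fun x hx => mem_Ns.2 hx
  · intro h χ hχ P hP
    rw [bx_sum_eq (fun x hx => hP x (mem_Ns.1 hx)) hχ]
    exact h χ hχ

lemma low_add {F : Type*} [AddGroup F] (φ ψ : Lab D L → F) (a : Lab D L) :
    low (φ + ψ) a = low φ a + low ψ a := by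
  unfold low; split_ifs <;> simp

lemma low_smul (c : ℝ) (φ : Lab D L → E) (a : Lab D L) :
    low (c • φ) a = c • low φ a := by
  unfold low; split_ifs <;> simp

lemma dv_add (χ ψ : Site D → Lab D L → E) (x : Site D) (a : Lab D L) :
    dv (χ + ψ) x a = dv χ x a + dv ψ x a := by
  unfold dv
  rw [Pi.add_apply, Pi.add_apply, low_add]; abel

lemma dv_smul (c : ℝ) (χ : Site D → Lab D L → E) (x : Site D) (a : Lab D L) :
    dv (c • χ) x a = c • dv χ x a := by
  unfold dv
  rw [Pi.smul_apply, Pi.smul_apply, low_smul, smul_sub]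

lemma dp_add (χ ψ : Site D → Lab D L → E) (x : Site D) (p : (Fin D × Fin D) × Fin L) :
    dp (χ + ψ) x p = dp χ x p + dp ψ x p := by
  unfold dp
  simp only [Pi.add_apply]; abel

lemma dp_smul (c : ℝ) (χ : Site D → Lab D L → E) (x : Site D) (p : (Fin D × Fin D) × Fin L) :
    dp (c • χ) x p = c • dp χ x p := by
  unfold dp
  simp only [Pi.smul_apply, smul_sub, smul_add]

lemma bx_add_left (χ ψ : Site D → Lab D L → ℝ) (φ : Site D → Lab D L → E) (x : Site D) :
    bx (χ + ψ) φ x = bx χ φ x + bx ψ φ x := by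
  unfold bx
  simp only [dv_add, dp_add, add_smul, Finset.sum_add_distrib]; abel

lemma bx_smul_left (c : ℝ) (χ : Site D → Lab D L → ℝ) (φ : Site D → Lab D L → E) (x : Site D) :
    bx (c • χ) φ x = c • bx χ φ x := by
  unfold bx
  simp only [dv_smul, dp_smul, smul_assoc, Finset.smul_sum, smul_add]

lemma bx_add_right (χ : Site D → Lab D L → ℝ) (φ ψ : Site D → Lab D L → E) (x : Site D) :
    bx χ (φ + ψ) x = bx χ φ x + bx χ ψ x := by
  unfold bx
  simp only [dv_add, dp_add, smul_add, Finset.sum_add_distrib]; abel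

lemma bx_smul_right (c : ℝ) (χ : Site D → Lab D L → ℝ) (φ : Site D → Lab D L → E) (x : Site D) :
    bx χ (c • φ) x = c • bx χ φ x := by
  unfold bx
  simp only [dv_smul, dp_smul, Finset.smul_sum, smul_add, smul_comm c]

lemma bx_zero_left (φ : Site D → Lab D L → E) (x : Site D) : bx 0 φ x = 0 :=
  bx_zero rfl fun _ => rfl

lemma bx_zero_right (χ : Site D → Lab D L → ℝ) (x : Site D) :
    bx χ (0 : Site D → Lab D L → E) x = 0 := by
  have := bx_smul_right (E := E) 0 χ 0 x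
  simpa using this

lemma bx_sum_left {ι : Type*} (s : Finset ι) (χ : ι → Site D → Lab D L → ℝ)
    (φ : Site D → Lab D L → E) (x : Site D) :
    bx (∑ i ∈ s, χ i) φ x = ∑ i ∈ s, bx (χ i) φ x := by
  classical
  induction s using Finset.induction_on with
  | empty => simp [bx_zero_left]
  | insert a s ha ih => rw [Finset.sum_insert ha, Finset.sum_insert ha, bx_add_left, ih]

lemma bx_sum_right {ι : Type*} (s : Finset ι) (χ : Site D → Lab D L → ℝ)
    (φ : ι → Site D → Lab D L → E) (x : Site D) :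
    bx χ (∑ i ∈ s, φ i) x = ∑ i ∈ s, bx χ (φ i) x := by
  classical
  induction s using Finset.induction_on with
  | empty => simp [bx_zero_right]
  | insert a s ha ih => rw [Finset.sum_insert ha, Finset.sum_insert ha, bx_add_right, ih]

end lin

/-! ### The weighted inequality -/

/-- weights at the midpoints of the links -/
def Tw (α : ℝ) (j : Fin D) (x : Site D) (a : Lab D L) : ℝ :=
  Real.exp (α * ((x j : ℝ) + if a.1 = j then 1 / 2 else 0))

lemma Tw_pos (α : ℝ) (j : Fin D) (x : Site D) (a : Lab D L) : 0 < Tw α j x a := Real.exp_pos _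

/-- the algebraic inequality on a plaquette, `q = exp(α/2)` -/
lemma plaq_ineq {q t1 t2 t3 t4 : ℝ} (hq : 0 < q) :
    -(((q ^ 2 + (q ^ 2)⁻¹) / 2 - 1) * (t2 ^ 2 + t4 ^ 2)) ≤
      (q * t1 + q ^ 2 * t2 - q * t3 - t4) *
        (q⁻¹ * t1 + (q ^ 2)⁻¹ * t2 - q⁻¹ * t3 - t4) := by
  have h : (q * t1 + q ^ 2 * t2 - q * t3 - t4) *
        (q⁻¹ * t1 + (q ^ 2)⁻¹ * t2 - q⁻¹ * t3 - t4) +
      (((q ^ 2 + (q ^ 2)⁻¹) / 2 - 1) * (t2 ^ 2 + t4 ^ 2)) =
      ((t1 - t3) + (q + q⁻¹) / 2 * (t2 - t4)) ^ 2 +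
        ((q - q⁻¹) / 2) ^ 2 * (t2 - t4) ^ 2 := by
    field_simp
    ring
  have h2 : 0 ≤ ((t1 - t3) + (q + q⁻¹) / 2 * (t2 - t4)) ^ 2 +
        ((q - q⁻¹) / 2) ^ 2 * (t2 - t4) ^ 2 := by positivity
  linarith

/-- the terms lost at a plaquette -/
def rp (u : Site D → Lab D L → ℝ) (j : Fin D) (x : Site D) (p : (Fin D × Fin D) × Fin L) : ℝ :=
  if p.1.1 = j then u x (p.1.2, p.2) ^ 2 + u (x + ev j) (p.1.2, p.2) ^ 2
  else if p.1.2 = j then u x (p.1.1, p.2) ^ 2 + u (x + ev j) (p.1.1, p.2) ^ 2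
  else 0

lemma sum_rp_le (u : Site D → Lab D L → ℝ) (j : Fin D) (x : Site D) :
    ∑ p ∈ plabs D L, rp u j x p ≤ ∑ a, (u x a ^ 2 + u (x + ev j) a ^ 2) := by
  classical
  set f : Lab D L → ℝ := fun a => u x a ^ 2 + u (x + ev j) a ^ 2 with hf
  have hf0 : ∀ a, 0 ≤ f a := fun a => by rw [hf]; positivity
  have h1 : ∀ p ∈ plabs D L, rp u j x p =
      (if p.1.1 = j ∧ j < p.1.2 then f (p.1.2, p.2) else 0) +
      (if p.1.2 = j ∧ p.1.1 < j then f (p.1.1, p.2) else 0) := by
    intro p hp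
    have hlt : p.1.1 < p.1.2 := by unfold plabs at hp; simpa using hp
    unfold rp
    by_cases h : p.1.1 = j
    · rw [if_pos h, if_pos ⟨h, h ▸ hlt⟩, if_neg, add_zero]
      rintro ⟨_, h3⟩; rw [h] at h3; exact lt_irrefl _ h3
    · rw [if_neg h, if_neg (c := p.1.1 = j ∧ j < p.1.2) (fun h' => h h'.1), zero_add]
      by_cases h2 : p.1.2 = j
      · rw [if_pos h2, if_pos ⟨h2, h2 ▸ hlt⟩]
      · rw [if_neg h2, if_neg (fun h' => h2 h'.1)]
  rw [Finset.sum_congr rfl h1]
  refine (plabs_le _ fun p => by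
    have := hf0 (p.1.2, p.2); have := hf0 (p.1.1, p.2)
    split_ifs <;> simp <;> positivity).trans ?_
  rw [Finset.sum_add_distrib]
  have e1 : ∑ p : (Fin D × Fin D) × Fin L, (if p.1.1 = j ∧ j < p.1.2 then f (p.1.2, p.2) else 0) =
      ∑ m : Fin D, ∑ s : Fin L, if j < m then f (m, s) else 0 := by
    rw [Fintype.sum_prod_type, Fintype.sum_prod_type, Finset.sum_eq_single j]
    · simp
    · intro b _ hb
      simp [hb]
    · simp
  have e2 : ∑ p : (Fin D × Fin D) × Fin L, (if p.1.2 = j ∧ p.1.1 < j then f (p.1.1, p.2) else 0) =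
      ∑ m : Fin D, ∑ s : Fin L, if m < j then f (m, s) else 0 := by
    rw [Fintype.sum_prod_type, Fintype.sum_prod_type, Finset.sum_comm, Finset.sum_eq_single j]
    · simp
    · intro b _ hb
      simp [hb]
    · simp
  rw [e1, e2, ← Finset.sum_add_distrib, Fintype.sum_prod_type]
  refine Finset.sum_le_sum fun m _ => ?_
  rw [← Finset.sum_add_distrib]
  refine Finset.sum_le_sum fun s _ => ?_
  have := hf0 (m, s)
  rcases lt_trichotomy j m with h | h | h
  · rw [if_pos h, if_neg (not_lt.2 h.le)]; simp [hf]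
  · rw [if_neg (by rw [h]; exact lt_irrefl _), if_neg (by rw [h]; exact lt_irrefl _)]
    simpa using this
  · rw [if_neg (not_lt.2 h.le), if_pos h]; simp [hf]

lemma ev_same (i : Fin D) : (ev i : Site D) i = 1 := by unfold ev; simp

lemma ev_ne {i j : Fin D} (h : j ≠ i) : (ev i : Site D) j = 0 := by
  unfold ev; simp [h]

/-- `exp(α/2)` and its powers -/
lemma exp_half_sq (α : ℝ) : Real.exp (α / 2) ^ 2 = Real.exp α := by
  rw [← Real.exp_nat_mul]; congr 1; push_cast; ring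

lemma cosh_q (α : ℝ) : (Real.exp (α / 2) ^ 2 + (Real.exp (α / 2) ^ 2)⁻¹) / 2 = Real.cosh α := by
  rw [exp_half_sq, ← Real.exp_neg, Real.cosh_eq]

/-- the weighted fields -/
def mulw (T u : Site D → Lab D L → ℝ) : Site D → Lab D L → ℝ := fun x a => T x a * u x a
def divw (T u : Site D → Lab D L → ℝ) : Site D → Lab D L → ℝ := fun x a => (T x a)⁻¹ * u x a

lemma low_congr_tw (α : ℝ) (j : Fin D) (x : Site D) (u : Lab D L → ℝ) (a : Lab D L) :
    low (fun b => Tw α j x b * u b) a = Tw α j x a * low u a := by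
  unfold low
  split_ifs
  · simp
  · rfl

lemma low_congr_tw' (α : ℝ) (j : Fin D) (x : Site D) (u : Lab D L → ℝ) (a : Lab D L) :
    low (fun b => (Tw α j x b)⁻¹ * u b) a = (Tw α j x a)⁻¹ * low u a := by
  unfold low
  split_ifs
  · simp
  · rfl

lemma dv_w (α : ℝ) (j : Fin D) (u : Site D → Lab D L → ℝ) (x : Site D) (a : Lab D L) :
    dv (mulw (Tw α j) u) x a * dv (divw (Tw α j) u) x a = dv u x a ^ 2 := by
  unfold dv
  have h1 : low (mulw (Tw α j) u x) a = Tw α j x a * low (u x) a := low_congr_tw α j x (u x) a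
  have h2 : low (divw (Tw α j) u x) a = (Tw α j x a)⁻¹ * low (u x) a :=
    low_congr_tw' α j x (u x) a
  rw [h1, h2]
  unfold mulw divw
  have := (Tw_pos (L := L) α j x a).ne'
  field_simp

lemma dp_w (α : ℝ) (j : Fin D) (u : Site D → Lab D L → ℝ) (x : Site D)
    (p : (Fin D × Fin D) × Fin L) (hp : p.1.1 < p.1.2) :
    -((Real.cosh α - 1) * rp u j x p) ≤
      dp (mulw (Tw α j) u) x p * dp (divw (Tw α j) u) x p := by
  obtain ⟨⟨i, k⟩, s⟩ := p
  simp only at hp
  have hik : i ≠ k := hp.ne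
  set t : ℝ := Real.exp (α * (x j : ℝ)) with ht
  have ht0 : 0 < t := Real.exp_pos _
  set q : ℝ := Real.exp (α / 2) with hq
  have hq0 : 0 < q := Real.exp_pos _
  have T1 : ∀ m : Fin D, m ≠ j → Tw (L := L) α j x (m, s) = t := by
    intro m hm; unfold Tw; simp only [if_neg hm, add_zero]; rfl
  have T2 : Tw (L := L) α j x (j, s) = t * q := by
    unfold Tw; simp only [if_true]; rw [ht, hq, ← Real.exp_add]; congr 1; ring
  have T3 : ∀ m : Fin D, m ≠ j → Tw (L := L) α j (x + ev j) (m, s) = t * q ^ 2 := by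
    intro m hm; unfold Tw
    simp only [if_neg hm, add_zero, Pi.add_apply, ev_same]
    rw [ht, hq, exp_half_sq, ← Real.exp_add]; congr 1; push_cast; ring
  have T4 : ∀ m : Fin D, m ≠ j → Tw (L := L) α j (x + ev m) (j, s) = t * q := by
    intro m hm; unfold Tw
    simp only [if_true, Pi.add_apply, ev_ne (Ne.symm hm), add_zero]
    rw [ht, hq, ← Real.exp_add]; congr 1; ring
  have T5 : ∀ m n : Fin D, m ≠ j → n ≠ j → Tw (L := L) α j (x + ev m) (n, s) = t := by
    intro m n hm hn; unfold Tw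
    simp only [if_neg hn, Pi.add_apply, ev_ne (Ne.symm hm), add_zero]; rfl
  have hcosh := cosh_q α
  rw [← hq] at hcosh
  rw [← hcosh]
  unfold rp dp mulw divw
  simp only
  by_cases h1 : i = j
  · subst h1
    rw [if_pos rfl, T1 k (Ne.symm hik), T2, T3 k (Ne.symm hik), T4 k (Ne.symm hik)]
    have := plaq_ineq (q := q) (t1 := u x (i, s)) (t2 := u (x + ev i) (k, s))
      (t3 := u (x + ev k) (i, s)) (t4 := u x (k, s)) hq0
    refine le_trans (le_of_eq ?_) (this.trans (le_of_eq ?_))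
    · ring
    · field_simp; ring
  · by_cases h2 : k = j
    · subst h2
      rw [if_neg h1, if_pos rfl, T1 i h1, T2, T3 i h1, T4 i h1]
      have := plaq_ineq (q := q) (t1 := u x (k, s)) (t2 := u (x + ev k) (i, s))
        (t3 := u (x + ev i) (k, s)) (t4 := u x (i, s)) hq0
      refine le_trans (le_of_eq ?_) (this.trans (le_of_eq ?_))
      · ring
      · field_simp; ring
    · rw [if_neg h1, if_neg h2, T1 i h1, T1 k h2, T5 i k h1 h2, T5 k i h2 h1]
      have : (t * u x (i, s) + t * u (x + ev i) (k, s) - t * u x (k, s) -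
        t * u (x + ev k) (i, s)) * (t⁻¹ * u x (i, s) + t⁻¹ * u (x + ev i) (k, s) -
        t⁻¹ * u x (k, s) - t⁻¹ * u (x + ev k) (i, s)) =
        (u x (i, s) + u (x + ev i) (k, s) - u x (k, s) - u (x + ev k) (i, s)) ^ 2 := by
        field_simp
      rw [this, mul_zero, neg_zero]
      positivity

/-- the Combes-Thomas inequality in an arbitrary region -/
lemma ct_ineq (A : Finset (Site D)) (α : ℝ) (j : Fin D) (u : Site D → Lab D L → ℝ)
    (hu : ∀ x, x ∉ A → u x = 0) :
    (lam0 L - (2 * Real.cosh α - 2)) * ∑ x ∈ A, ∑ a, u x a ^ 2 ≤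
      ∑ x ∈ Ns A, bx (mulw (Tw α j) u) (divw (Tw α j) u) x := by
  classical
  have hcosh : 0 ≤ Real.cosh α - 1 := by have := Real.one_le_cosh α; linarith
  have h1 : ∀ x, bx (mulw (Tw α j) u) (divw (Tw α j) u) x ≥
      lam0 L * ∑ a, u x a ^ 2 - (Real.cosh α - 1) * ∑ a, (u x a ^ 2 + u (x + ev j) a ^ 2) := by
    intro x
    unfold bx
    simp only [smul_eq_mul]
    have e1 : ∑ a, dv (mulw (Tw α j) u) x a * dv (divw (Tw α j) u) x a = ∑ a, dv u x a ^ 2 :=
      Finset.sum_congr rfl fun a _ => dv_w α j u x a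
    have e2 : lam0 L * ∑ a, u x a ^ 2 ≤ ∑ a, dv u x a ^ 2 := by
      have := vc (E := ℝ) (u x)
      simpa [dv, Real.norm_eq_abs, sq_abs] using this
    have e3 : -((Real.cosh α - 1) * ∑ p ∈ plabs D L, rp u j x p) ≤
        ∑ p ∈ plabs D L, dp (mulw (Tw α j) u) x p * dp (divw (Tw α j) u) x p := by
      rw [Finset.mul_sum, ← Finset.sum_neg_distrib]
      refine Finset.sum_le_sum fun p hp => dp_w α j u x p ?_
      unfold plabs at hp; simpa using hp
    have e4 := mul_le_mul_of_nonneg_left (sum_rp_le u j x) hcosh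
    rw [e1]
    linarith
  have h2 : ∑ x ∈ Ns A, ∑ a, u x a ^ 2 = ∑ x ∈ A, ∑ a, u x a ^ 2 := by
    symm
    refine Finset.sum_subset (fun x hx => mem_Ns.2 (Or.inl hx)) fun x _ hx => ?_
    rw [hu x hx]; simp
  have h3 : ∑ x ∈ Ns A, ∑ a, u (x + ev j) a ^ 2 ≤ ∑ x ∈ A, ∑ a, u x a ^ 2 := by
    have e : ∑ x ∈ Ns A, ∑ a, u (x + ev j) a ^ 2 =
        ∑ y ∈ (Ns A).image (fun x => x + ev j), ∑ a, u y a ^ 2 := by
      rw [Finset.sum_image]
      intro x _ y _ h; exact add_right_cancel h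
    rw [e]
    calc ∑ y ∈ (Ns A).image (fun x => x + ev j), ∑ a, u y a ^ 2 ≤
          ∑ y ∈ (Ns A).image (fun x => x + ev j) ∪ A, ∑ a, u y a ^ 2 :=
          Finset.sum_le_sum_of_subset_of_nonneg Finset.subset_union_left
            fun _ _ _ => Finset.sum_nonneg fun _ _ => by positivity
      _ = ∑ y ∈ A, ∑ a, u y a ^ 2 := by
          symm
          refine Finset.sum_subset Finset.subset_union_right fun x _ hx => ?_
          rw [hu x hx]; simp
  calc (lam0 L - (2 * Real.cosh α - 2)) * ∑ x ∈ A, ∑ a, u x a ^ 2 ≤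
        lam0 L * ∑ x ∈ Ns A, ∑ a, u x a ^ 2 - (Real.cosh α - 1) *
          (∑ x ∈ Ns A, ∑ a, u x a ^ 2 + ∑ x ∈ Ns A, ∑ a, u (x + ev j) a ^ 2) := by
        rw [h2]
        have := mul_le_mul_of_nonneg_left h3 hcosh
        linarith
    _ = ∑ x ∈ Ns A, (lam0 L * ∑ a, u x a ^ 2 - (Real.cosh α - 1) *
          ∑ a, (u x a ^ 2 + u (x + ev j) a ^ 2)) := by
        rw [Finset.sum_sub_distrib, ← Finset.mul_sum, ← Finset.mul_sum]
        simp only [Finset.sum_add_distrib]
    _ ≤ _ := Finset.sum_le_sum fun x _ => h1 x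

end

end Pool.Agent.N990
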