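import Mathlib

/-!
# Lattice Yang-Mills theory in a slab: basic definitions

Axial gauge: the vertical links are `1`; the spin at the site `x` of `ℤ^D` is the family of the
horizontal links `(x, μ, s)`, `μ : Fin D`, `s : Fin L` (layer `s` is at height `s + 1` above the
frozen wall).
-/

open MeasureTheory Matrix
open scoped Matrix.Norms.Frobenius

namespace Pool.Agent.N990

noncomputable section

/-- Complex `N × N` matrices. -/
abbrev Mt (N : ℕ) := Matrix (Fin N) (Fin N) ℂ

/-- The unitary group `U(N)`. -/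
abbrev UU (N : ℕ) := Matrix.unitaryGroup (Fin N) ℂ

/-- The matrix of an element of a subgroup of `U(N)`. -/
def mt {N : ℕ} {G : Subgroup (UU N)} (g : G) : Mt N := ((g : UU N) : Mt N)

/-- Sites of `ℤ^D` (columns of the slab). -/
abbrev Site (D : ℕ) := Fin D → ℤ

/-- Labels of the horizontal links of a column: direction and layer. -/
abbrev Lab (D L : ℕ) := Fin D × Fin L

/-- sup distance -/
def dd {D : ℕ} (x y : Site D) : ℕ := Finset.univ.sup fun i => (x i - y i).natAbs

/-- unit vectors -/
def ev {D : ℕ} (i : Fin D) : Site D := Pi.single i 1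

section gen

variable {I K : Type*}

/-- the configuration `τ` in `U`, `σ` outside -/
def pw (U : Finset I) (τ σ : I → K) : I → K := by
  classical exact fun i => if i ∈ U then τ i else σ i

variable [MeasurableSpace K] (lam : Measure K)

/-- product measure -/
def pm (I : Type*) {K : Type*} [MeasurableSpace K] (lam : Measure K) : Measure (I → K) :=
  Measure.infinitePi fun _ : I => lam

/-- unnormalised integral over the spins in `U` with boundary condition `σ` and weight `W` -/
def Zf (W : (I → K) → ℝ) (U : Finset I) (σ : I → K) (F : (I → K) → ℝ) : ℝ :=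
  ∫ τ, F (pw U τ σ) * W (pw U τ σ) ∂(pm I lam)

/-- finite volume expectation -/
def Ex (W : (I → K) → ℝ) (U : Finset I) (σ : I → K) (F : (I → K) → ℝ) : ℝ :=
  Zf lam W U σ F / Zf lam W U σ (fun _ => 1)

end gen

section model

variable {N D L : ℕ} {G : Subgroup (UU N)}

/-- value one layer below (zero below the lowest layer) -/
def low {E : Type*} [Zero E] (φ : Lab D L → E) (a : Lab D L) : E :=
  if h : (a.2 : ℕ) = 0 then 0 else φ (a.1, ⟨(a.2 : ℕ) - 1, by omega⟩)

/-- vertical derivative at the site `x` -/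
def dv {E : Type*} [AddGroup E] (φ : Site D → Lab D L → E) (x : Site D) (a : Lab D L) : E :=
  φ x a - low (φ x) a

/-- horizontal plaquette derivative -/
def dp {E : Type*} [AddCommGroup E] (φ : Site D → Lab D L → E) (x : Site D)
    (p : (Fin D × Fin D) × Fin L) : E :=
  φ x (p.1.1, p.2) + φ (x + ev p.1.1) (p.1.2, p.2) - φ x (p.1.2, p.2) -
    φ (x + ev p.1.2) (p.1.1, p.2)

/-- the plaquette labels `i < j` -/
def plabs (D L : ℕ) : Finset ((Fin D × Fin D) × Fin L) :=
  Finset.univ.filter fun p => p.1.1 < p.1.2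

/-- `U - 1` -/
def Yf (σ : Site D → Lab D L → G) (x : Site D) (a : Lab D L) : Mt N := mt (σ x a) - 1

/-- `U_i(x) U_j(x + e_i) - U_j(x) U_i(x + e_j)` -/
def Pq (σ : Site D → Lab D L → G) (x : Site D) (p : (Fin D × Fin D) × Fin L) : Mt N :=
  mt (σ x (p.1.1, p.2)) * mt (σ (x + ev p.1.1) (p.1.2, p.2)) -
    mt (σ x (p.1.2, p.2)) * mt (σ (x + ev p.1.2) (p.1.1, p.2))

/-- the energy based at the site `x` -/
def hx (σ : Site D → Lab D L → G) (x : Site D) : ℝ :=
  (1 / 2) * ∑ a, ‖dv (Yf σ) x a‖ ^ 2 + (1 / 2) * ∑ p ∈ plabs D L, ‖Pq σ x p‖ ^ 2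

/-- the energy of the base points in `P` -/
def Hm (P : Finset (Site D)) (σ : Site D → Lab D L → G) : ℝ := ∑ x ∈ P, hx σ x

/-- Boltzmann weight -/
def Wt (β : ℝ) (P : Finset (Site D)) (σ : Site D → Lab D L → G) : ℝ :=
  Real.exp (-(β * Hm P σ))

/-- the linearised quadratic form based at `x`, a scalar field against a field with values in a
vector space -/
def bx {E : Type*} [AddCommGroup E] [Module ℝ E] (χ : Site D → Lab D L → ℝ)
    (φ : Site D → Lab D L → E) (x : Site D) : E :=
  ∑ a, dv χ x a • dv φ x a + ∑ p ∈ plabs D L, dp χ x p • dp φ x p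

/-- `φ` is harmonic in `A` for the linearised action -/
def Harm {E : Type*} [AddCommGroup E] [Module ℝ E] (A : Finset (Site D))
    (φ : Site D → Lab D L → E) : Prop :=
  ∀ χ : Site D → Lab D L → ℝ, (∀ x, x ∉ A → χ x = 0) →
    ∀ P : Finset (Site D), (∀ x, (x ∈ A ∨ ∃ i, x + ev i ∈ A) → x ∈ P) → ∑ x ∈ P, bx χ φ x = 0

end model

end

end Pool.Agent.N990
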