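import Pool.Agent.N990.Slab.Mat

/-! # Energy bounds and Taylor expansion under small left shifts -/

open MeasureTheory Matrix
open scoped Matrix.Norms.Frobenius

namespace Pool.Agent.N990

noncomputable section

variable {N D L : ℕ} {G : Subgroup (UU N)}

/-- the sum of the squares at a site -/
def es (σ : Site D → Lab D L → G) (y : Site D) : ℝ := ∑ a, ‖Yf σ y a‖ ^ 2

lemma es_nonneg (σ : Site D → Lab D L → G) (y : Site D) : 0 ≤ es σ y :=
  Finset.sum_nonneg fun _ _ => by positivity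

lemma es_le (σ : Site D → Lab D L → G) (y : Site D) :
    es σ y ≤ 4 * N * (D * L) := by
  unfold es
  calc ∑ a : Lab D L, ‖Yf σ y a‖ ^ 2 ≤ ∑ a : Lab D L, (4 * N : ℝ) :=
        Finset.sum_le_sum fun a _ => norm_mt_sub_one_sq _
    _ = 4 * N * (D * L) := by
        rw [Finset.sum_const, Finset.card_univ, nsmul_eq_mul, Fintype.card_prod, Fintype.card_fin,
          Fintype.card_fin]
        push_cast; ring

lemma Yf_le_es (σ : Site D → Lab D L → G) (y : Site D) (a : Lab D L) :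
    ‖Yf σ y a‖ ^ 2 ≤ es σ y :=
  Finset.single_le_sum (f := fun a => ‖Yf σ y a‖ ^ 2) (fun _ _ => by positivity) (Finset.mem_univ a)

lemma sum_low_le (f : Lab D L → ℝ) (hf : ∀ a, 0 ≤ f a) : ∑ a, low f a ≤ ∑ a, f a := by
  classical
  have h1 : ∀ a : Lab D L, low f a = ∑ b : Lab D L, if b.1 = a.1 ∧ (b.2 : ℕ) + 1 = a.2 then f b
      else 0 := by
    intro a
    unfold low
    split_ifs with h
    · symm
      refine Finset.sum_eq_zero fun b _ => ?_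
      rw [if_neg]; rintro ⟨_, h2⟩; omega
    · rw [Finset.sum_eq_single (a.1, ⟨(a.2 : ℕ) - 1, by omega⟩)]
      · rw [if_pos]; exact ⟨rfl, by simp; omega⟩
      · rintro b _ hb
        rw [if_neg]
        rintro ⟨h2, h3⟩
        apply hb
        ext
        · simp [h2]
        · simp; omega
      · intro h'; exact absurd (Finset.mem_univ _) h'
  calc ∑ a, low f a = ∑ a, ∑ b : Lab D L, if b.1 = a.1 ∧ (b.2 : ℕ) + 1 = a.2 then f b else 0 :=
        Finset.sum_congr rfl fun a _ => h1 a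
    _ = ∑ b : Lab D L, ∑ a : Lab D L, if b.1 = a.1 ∧ (b.2 : ℕ) + 1 = a.2 then f b else 0 :=
        Finset.sum_comm
    _ ≤ ∑ b, f b := by
        refine Finset.sum_le_sum fun b _ => ?_
        by_cases hb : (b.2 : ℕ) + 1 < L
        · rw [Finset.sum_eq_single (b.1, ⟨(b.2 : ℕ) + 1, hb⟩)]
          · rw [if_pos]; exact ⟨rfl, rfl⟩
          · rintro a _ ha
            rw [if_neg]
            rintro ⟨h2, h3⟩
            apply ha
            ext
            · simp [h2]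
            · simp; omega
          · intro h'; exact absurd (Finset.mem_univ _) h'
        · rw [Finset.sum_eq_zero]
          · exact hf b
          · intro a _
            rw [if_neg]
            rintro ⟨_, h3⟩
            have := a.2.2
            omega

lemma low_norm {E : Type*} [NormedAddCommGroup E] (φ : Lab D L → E) (a : Lab D L) :
    ‖low φ a‖ ^ 2 = low (fun b => ‖φ b‖ ^ 2) a := by
  unfold low
  split_ifs <;> simp

lemma sum_low_norm_le {E : Type*} [NormedAddCommGroup E] (φ : Lab D L → E) :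
    ∑ a, ‖low φ a‖ ^ 2 ≤ ∑ a, ‖φ a‖ ^ 2 := by
  simp_rw [low_norm]
  exact sum_low_le _ fun _ => by positivity

lemma Pq_eq (σ : Site D → Lab D L → G) (x : Site D) (p : (Fin D × Fin D) × Fin L) :
    Pq σ x p = dp (Yf σ) x p + (Yf σ x (p.1.1, p.2) * Yf σ (x + ev p.1.1) (p.1.2, p.2) -
      Yf σ x (p.1.2, p.2) * Yf σ (x + ev p.1.2) (p.1.1, p.2)) := by
  unfold Pq dp Yf
  noncomm_ring

lemma norm_UV_sub (a b c d : G) : ‖mt a * mt b - mt c * mt d‖ ≤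
    ‖mt a - 1‖ + ‖mt b - 1‖ + (‖mt c - 1‖ + ‖mt d - 1‖) := by
  have h : mt a * mt b - mt c * mt d = ((mt a - 1) * mt b + (mt b - 1)) -
      ((mt c - 1) * mt d + (mt d - 1)) := by noncomm_ring
  rw [h]
  refine (norm_sub_le _ _).trans (add_le_add ?_ ?_)
  · refine (norm_add_le _ _).trans ?_
    rw [norm_mul_mt]
  · refine (norm_add_le _ _).trans ?_
    rw [norm_mul_mt]

lemma Pq_sq_le (σ : Site D → Lab D L → G) (x : Site D) (p : (Fin D × Fin D) × Fin L) :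
    ‖Pq σ x p‖ ^ 2 ≤ 4 * (‖Yf σ x (p.1.1, p.2)‖ ^ 2 + ‖Yf σ (x + ev p.1.1) (p.1.2, p.2)‖ ^ 2 +
      ‖Yf σ x (p.1.2, p.2)‖ ^ 2 + ‖Yf σ (x + ev p.1.2) (p.1.1, p.2)‖ ^ 2) := by
  have h := norm_UV_sub (σ x (p.1.1, p.2)) (σ (x + ev p.1.1) (p.1.2, p.2))
    (σ x (p.1.2, p.2)) (σ (x + ev p.1.2) (p.1.1, p.2))
  unfold Pq Yf
  set a := ‖mt (σ x (p.1.1, p.2)) - 1‖
  set b := ‖mt (σ (x + ev p.1.1) (p.1.2, p.2)) - 1‖
  set c := ‖mt (σ x (p.1.2, p.2)) - 1‖
  set d := ‖mt (σ (x + ev p.1.2) (p.1.1, p.2)) - 1‖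
  have h0 : (0 : ℝ) ≤ ‖mt (σ x (p.1.1, p.2)) * mt (σ (x + ev p.1.1) (p.1.2, p.2)) -
    mt (σ x (p.1.2, p.2)) * mt (σ (x + ev p.1.2) (p.1.1, p.2))‖ := norm_nonneg _
  have h2 := pow_le_pow_left₀ h0 h 2
  refine h2.trans ?_
  nlinarith [sq_nonneg (a - b), sq_nonneg (a - c), sq_nonneg (a - d), sq_nonneg (b - c),
    sq_nonneg (b - d), sq_nonneg (c - d)]

/-- sum over all ordered pairs -/
lemma sum_pairs (f : Lab D L → ℝ) :
    ∑ p : (Fin D × Fin D) × Fin L, f (p.1.1, p.2) = D * ∑ a, f a := by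
  rw [Fintype.sum_prod_type, Fintype.sum_prod_type, Fintype.sum_prod_type]
  simp only
  rw [Finset.mul_sum]
  refine Finset.sum_congr rfl fun i _ => ?_
  rw [Finset.sum_const, Finset.card_univ, Fintype.card_fin, nsmul_eq_mul]

lemma sum_pairs' (f : Lab D L → ℝ) :
    ∑ p : (Fin D × Fin D) × Fin L, f (p.1.2, p.2) = D * ∑ a, f a := by
  rw [Fintype.sum_prod_type, Fintype.sum_prod_type, Fintype.sum_prod_type]
  simp only
  rw [Finset.sum_const, Finset.card_univ, Fintype.card_fin, nsmul_eq_mul]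

lemma sum_pairs2 (f : Fin D → Lab D L → ℝ) :
    ∑ p : (Fin D × Fin D) × Fin L, f p.1.1 (p.1.2, p.2) = ∑ i, ∑ a, f i a := by
  rw [Fintype.sum_prod_type, Fintype.sum_prod_type]
  simp only
  refine Finset.sum_congr rfl fun i _ => ?_
  rw [Fintype.sum_prod_type]

lemma sum_pairs2' (f : Fin D → Lab D L → ℝ) :
    ∑ p : (Fin D × Fin D) × Fin L, f p.1.2 (p.1.1, p.2) = ∑ i, ∑ a, f i a := by
  rw [Fintype.sum_prod_type, Fintype.sum_prod_type, Finset.sum_comm]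
  simp only
  refine Finset.sum_congr rfl fun i _ => ?_
  rw [Fintype.sum_prod_type]

/-- sum over plaquettes is at most the sum over all label pairs of a nonnegative function -/
lemma plabs_le (f : (Fin D × Fin D) × Fin L → ℝ) (hf : ∀ p, 0 ≤ f p) :
    ∑ p ∈ plabs D L, f p ≤ ∑ p, f p :=
  Finset.sum_le_sum_of_subset_of_nonneg (Finset.subset_univ _) fun p _ _ => hf p

lemma hx_nonneg (σ : Site D → Lab D L → G) (x : Site D) : 0 ≤ hx σ x := by
  unfold hx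
  have h1 : 0 ≤ ∑ a, ‖dv (Yf σ) x a‖ ^ 2 := Finset.sum_nonneg fun _ _ => by positivity
  have h2 : 0 ≤ ∑ p ∈ plabs D L, ‖Pq σ x p‖ ^ 2 := Finset.sum_nonneg fun _ _ => by positivity
  positivity

lemma hx_le (σ : Site D → Lab D L → G) (x : Site D) :
    hx σ x ≤ (4 * D + 4) * (es σ x + ∑ i, es σ (x + ev i)) := by
  have h1 : ∑ a, ‖dv (Yf σ) x a‖ ^ 2 ≤ 4 * es σ x := by
    calc ∑ a, ‖dv (Yf σ) x a‖ ^ 2 ≤ ∑ a, (2 * ‖Yf σ x a‖ ^ 2 + 2 * ‖low (Yf σ x) a‖ ^ 2) := by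
          refine Finset.sum_le_sum fun a _ => ?_
          unfold dv
          have h := norm_sub_le (Yf σ x a) (low (Yf σ x) a)
          have h2 := pow_le_pow_left₀ (norm_nonneg _) h 2
          nlinarith [sq_nonneg (‖Yf σ x a‖ - ‖low (Yf σ x) a‖)]
      _ = 2 * es σ x + 2 * ∑ a, ‖low (Yf σ x) a‖ ^ 2 := by
          rw [Finset.sum_add_distrib, ← Finset.mul_sum, ← Finset.mul_sum]; rfl
      _ ≤ 4 * es σ x := by
          have := sum_low_norm_le (Yf σ x)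
          unfold es; linarith
  have h2 : ∑ p ∈ plabs D L, ‖Pq σ x p‖ ^ 2 ≤ 8 * D * es σ x + 8 * ∑ i, es σ (x + ev i) := by
    calc ∑ p ∈ plabs D L, ‖Pq σ x p‖ ^ 2 ≤ ∑ p, ‖Pq σ x p‖ ^ 2 :=
          plabs_le _ fun _ => by positivity
      _ ≤ ∑ p : (Fin D × Fin D) × Fin L, 4 * (‖Yf σ x (p.1.1, p.2)‖ ^ 2 +
            ‖Yf σ (x + ev p.1.1) (p.1.2, p.2)‖ ^ 2 +
            ‖Yf σ x (p.1.2, p.2)‖ ^ 2 + ‖Yf σ (x + ev p.1.2) (p.1.1, p.2)‖ ^ 2) :=
          Finset.sum_le_sum fun p _ => Pq_sq_le σ x p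
      _ = 8 * D * es σ x + 8 * ∑ i, es σ (x + ev i) := by
          rw [← Finset.mul_sum, Finset.sum_add_distrib, Finset.sum_add_distrib,
            Finset.sum_add_distrib, sum_pairs (fun a => ‖Yf σ x a‖ ^ 2),
            sum_pairs' (fun a => ‖Yf σ x a‖ ^ 2),
            sum_pairs2 (fun i a => ‖Yf σ (x + ev i) a‖ ^ 2),
            sum_pairs2' (fun i a => ‖Yf σ (x + ev i) a‖ ^ 2)]
          unfold es
          ring
  unfold hx
  have h3 : 0 ≤ es σ x := es_nonneg _ _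
  have h4 : 0 ≤ ∑ i, es σ (x + ev i) := Finset.sum_nonneg fun _ _ => es_nonneg _ _
  have h5 : (0 : ℝ) ≤ D := Nat.cast_nonneg _
  nlinarith [mul_nonneg h5 h4, mul_nonneg h5 h3]

/-- hypothesis: vertical coercivity -/
def VC (lamL : ℝ) (N D L : ℕ) : Prop := ∀ φ : Lab D L → Mt N,
  lamL * ∑ a, ‖φ a‖ ^ 2 ≤ ∑ a, ‖φ a - low φ a‖ ^ 2

lemma hx_ge {lamL : ℝ} (hc : VC lamL N D L) (σ : Site D → Lab D L → G) (x : Site D) :
    lamL / 2 * es σ x ≤ hx σ x := by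
  have h1 := hc (Yf σ x)
  have h2 : 0 ≤ ∑ p ∈ plabs D L, ‖Pq σ x p‖ ^ 2 := Finset.sum_nonneg fun _ _ => by positivity
  unfold hx es dv
  linarith

/-! ### Taylor expansion -/

/-- inner product version of the linearised form at `x` -/
def bip (φ ψ : Site D → Lab D L → Mt N) (x : Site D) : ℝ :=
  ∑ a, ip (dv φ x a) (dv ψ x a) + ∑ p ∈ plabs D L, ip (dp φ x p) (dp ψ x p)

/-- a quadratic remainder estimate: if `‖P‖ ≤ A`, `‖P - p‖ ≤ e1`, `‖Q - q‖ ≤ e2` then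
`½‖P+Q‖² - ½‖P‖²` is close to `⟨p,q⟩ + ½‖q‖²` -/
lemma quad_rem (P p Q q : Mt N) {e1 e2 b c : ℝ} (hp : ‖P - p‖ ≤ e1) (hq : ‖Q - q‖ ≤ e2)
    (hP : ‖P‖ ≤ b) (hqn : ‖q‖ ≤ c) (h2 : ‖Q‖ ≤ c) :
    |(1 / 2) * ‖P + Q‖ ^ 2 - (1 / 2) * ‖P‖ ^ 2 - (ip p q + (1 / 2) * ‖q‖ ^ 2)| ≤
      b * e2 + e1 * c + c * e2 := by
  have h1 : (1 / 2) * ‖P + Q‖ ^ 2 - (1 / 2) * ‖P‖ ^ 2 - (ip p q + (1 / 2) * ‖q‖ ^ 2) =
      ip P (Q - q) + ip (P - p) q + ((1 / 2) * (‖Q‖ ^ 2 - ‖q‖ ^ 2)) := by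
    rw [norm_sq_add, ip_sub_left, ip_sub_right]; ring
  rw [h1]
  have hb : 0 ≤ b := (norm_nonneg _).trans hP
  have hc : 0 ≤ c := (norm_nonneg _).trans h2
  have h3 : |ip P (Q - q)| ≤ b * e2 :=
    (ip_le _ _).trans (mul_le_mul hP hq (norm_nonneg _) hb)
  have h4 : |ip (P - p) q| ≤ e1 * c :=
    (ip_le _ _).trans (mul_le_mul hp hqn (norm_nonneg _) ((norm_nonneg _).trans hp))
  have h5 : |(1 / 2) * (‖Q‖ ^ 2 - ‖q‖ ^ 2)| ≤ c * e2 := by
    have h6 : |‖Q‖ - ‖q‖| ≤ e2 := (abs_norm_sub_norm_le _ _).trans hq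
    have h7 : ‖Q‖ ^ 2 - ‖q‖ ^ 2 = (‖Q‖ - ‖q‖) * (‖Q‖ + ‖q‖) := by ring
    rw [h7, abs_mul, abs_mul, abs_of_pos (by norm_num : (0 : ℝ) < 1 / 2),
      abs_of_nonneg (by positivity : (0 : ℝ) ≤ ‖Q‖ + ‖q‖)]
    have h8 := norm_nonneg Q
    have h9 := norm_nonneg q
    have h10 : |‖Q‖ - ‖q‖| * (‖Q‖ + ‖q‖) ≤ e2 * (c + c) :=
      mul_le_mul h6 (by linarith) (by positivity) ((abs_nonneg _).trans h6)
    linarith
  calc _ ≤ |ip P (Q - q)| + |ip (P - p) q| + |(1 / 2) * (‖Q‖ ^ 2 - ‖q‖ ^ 2)| := abs_add_three _ _ _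
    _ ≤ _ := by linarith

/-- pointwise smallness data at one link -/
structure Sm (κ δ ω : ℝ) (s v : G) (w : Mt N) : Prop where
  hY : ‖mt s - 1‖ ≤ δ
  hw : ‖w‖ ≤ ω
  hv : ‖mt v - 1‖ ≤ 2 * ω
  hr : ‖mt v - 1 - w‖ ≤ κ * δ * ω

lemma Sm.diff {κ δ ω : ℝ} {s v : G} {w : Mt N} (h : Sm κ δ ω s v w) :
    ‖mt (v * s) - mt s‖ ≤ 2 * ω := by
  have : mt (v * s) - mt s = (mt v - 1) * mt s := by rw [mt_mul]; noncomm_ring
  rw [this, norm_mul_mt]; exact h.hv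

lemma Sm.rem {κ δ ω : ℝ} {s v : G} {w : Mt N} (h : Sm κ δ ω s v w) :
    ‖mt (v * s) - mt s - w‖ ≤ (κ + 2) * δ * ω := by
  have h1 : mt (v * s) - mt s - w = (mt v - 1 - w) + (mt v - 1) * (mt s - 1) := by
    rw [mt_mul]; noncomm_ring
  rw [h1]
  refine (norm_add_le _ _).trans ?_
  have h2 : ‖(mt v - 1) * (mt s - 1)‖ ≤ 2 * ω * δ :=
    (norm_mul_le _ _).trans (mul_le_mul h.hv h.hY (norm_nonneg _)
      ((norm_nonneg _).trans h.hv))
  have := h.hr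
  nlinarith

lemma Sm.om_nonneg {κ δ ω : ℝ} {s v : G} {w : Mt N} (h : Sm κ δ ω s v w) : 0 ≤ ω :=
  (norm_nonneg _).trans h.hw

lemma Sm.de_nonneg {κ δ ω : ℝ} {s v : G} {w : Mt N} (h : Sm κ δ ω s v w) : 0 ≤ δ :=
  (norm_nonneg _).trans h.hY

/-- product of two links -/
lemma prod_rem {κ δ ω : ℝ} {s1 v1 s2 v2 : G} {w1 w2 : Mt N} (hωδ : ω ≤ δ)
    (h1 : Sm κ δ ω s1 v1 w1) (h2 : Sm κ δ ω s2 v2 w2) :
    ‖mt (v1 * s1) * mt (v2 * s2) - mt s1 * mt s2 - (w1 + w2)‖ ≤ (2 * κ + 12) * δ * ω ∧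
    ‖mt (v1 * s1) * mt (v2 * s2) - mt s1 * mt s2‖ ≤ 4 * ω := by
  have hω := h1.om_nonneg
  have hδ := h1.de_nonneg
  have hd1 := h1.diff
  have hd2 := h2.diff
  have hr1 := h1.rem
  have hr2 := h2.rem
  constructor
  · have e : mt (v1 * s1) * mt (v2 * s2) - mt s1 * mt s2 - (w1 + w2) =
        (mt (v1 * s1) - mt s1 - w1) + (mt (v2 * s2) - mt s2 - w2) +
        (mt (v1 * s1) - mt s1) * ((mt (v2 * s2) - mt s2) + (mt s2 - 1)) +
        (mt s1 - 1) * (mt (v2 * s2) - mt s2) := by noncomm_ring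
    rw [e]
    have n1 : ‖(mt (v1 * s1) - mt s1) * ((mt (v2 * s2) - mt s2) + (mt s2 - 1))‖ ≤
        2 * ω * (2 * ω + δ) :=
      (norm_mul_le _ _).trans (mul_le_mul hd1 ((norm_add_le _ _).trans (add_le_add hd2 h2.hY))
        (norm_nonneg _) (by linarith))
    have n2 : ‖(mt s1 - 1) * (mt (v2 * s2) - mt s2)‖ ≤ δ * (2 * ω) :=
      (norm_mul_le _ _).trans (mul_le_mul h1.hY hd2 (norm_nonneg _) hδ)
    have := norm_add_le ((mt (v1 * s1) - mt s1 - w1) + (mt (v2 * s2) - mt s2 - w2) +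
        (mt (v1 * s1) - mt s1) * ((mt (v2 * s2) - mt s2) + (mt s2 - 1)))
        ((mt s1 - 1) * (mt (v2 * s2) - mt s2))
    have a2 := norm_add_le ((mt (v1 * s1) - mt s1 - w1) + (mt (v2 * s2) - mt s2 - w2))
        ((mt (v1 * s1) - mt s1) * ((mt (v2 * s2) - mt s2) + (mt s2 - 1)))
    have a3 := norm_add_le (mt (v1 * s1) - mt s1 - w1) (mt (v2 * s2) - mt s2 - w2)
    have hωω : ω * ω ≤ δ * ω := mul_le_mul_of_nonneg_right hωδ hω
    nlinarith
  · have e : mt (v1 * s1) * mt (v2 * s2) - mt s1 * mt s2 =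
        (mt (v1 * s1) - mt s1) * mt (v2 * s2) + mt s1 * (mt (v2 * s2) - mt s2) := by noncomm_ring
    rw [e]
    refine (norm_add_le _ _).trans ?_
    rw [norm_mul_mt, norm_mt_mul]
    linarith

lemma low_sub {E : Type*} [AddGroup E] (φ ψ : Lab D L → E) (a : Lab D L) :
    low (fun b => φ b - ψ b) a = low φ a - low ψ a := by
  unfold low; split_ifs <;> simp

lemma norm_low_le {E : Type*} [NormedAddCommGroup E] (φ : Lab D L → E) (a : Lab D L) {c : ℝ}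
    (hc : 0 ≤ c) (h : ∀ b, ‖φ b‖ ≤ c) : ‖low φ a‖ ≤ c := by
  unfold low
  split_ifs
  · simpa using hc
  · exact h _

/-- the Taylor constant -/
def CT (D L : ℕ) (κ : ℝ) : ℝ := (D * L + D * D * L) * (48 * κ + 304)

lemma taylor_site {κ δ ω : ℝ} (hκ : 0 ≤ κ) (hωδ : ω ≤ δ) (hω : 0 ≤ ω)
    (σ v : Site D → Lab D L → G) (w : Site D → Lab D L → Mt N) (x : Site D)
    (h0 : ∀ a, Sm κ δ ω (σ x a) (v x a) (w x a))
    (h1 : ∀ i a, Sm κ δ ω (σ (x + ev i) a) (v (x + ev i) a) (w (x + ev i) a)) :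
    |hx (v * σ) x - hx σ x - (bip (Yf σ) w x + (1 / 2) * bip w w x)| ≤
      CT D L κ * (ω * δ ^ 2) := by
  have hδ : 0 ≤ δ := hω.trans hωδ
  set Y := Yf σ with hY
  have hY' : ∀ y a, Yf (v * σ) y a - Y y a = mt (v y a * σ y a) - mt (σ y a) := by
    intro y a; rw [hY]; unfold Yf; simp only [Pi.mul_apply]; abel
  -- vertical terms
  have hv : ∀ a, |(1 / 2) * ‖dv (Yf (v * σ)) x a‖ ^ 2 - (1 / 2) * ‖dv Y x a‖ ^ 2 -
      (ip (dv Y x a) (dv w x a) + (1 / 2) * ‖dv w x a‖ ^ 2)| ≤ (12 * κ + 24) * (ω * δ ^ 2) := by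
    intro a
    have e1 : dv (Yf (v * σ)) x a = dv Y x a + (dv (Yf (v * σ)) x a - dv Y x a) := by abel
    rw [e1]
    have e2 : dv (Yf (v * σ)) x a - dv Y x a =
        (Yf (v * σ) x a - Y x a) - low (fun b => Yf (v * σ) x b - Y x b) a := by
      unfold dv; rw [low_sub]; abel
    have e3 : dv (Yf (v * σ)) x a - dv Y x a - dv w x a =
        (Yf (v * σ) x a - Y x a - w x a) - low (fun b => Yf (v * σ) x b - Y x b - w x b) a := by
      rw [e2, low_sub (fun b => Yf (v * σ) x b - Y x b) (w x)]; unfold dv; abel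
    have b1 : ∀ b, ‖Yf (v * σ) x b - Y x b - w x b‖ ≤ (κ + 2) * δ * ω := by
      intro b; rw [hY']; exact (h0 b).rem
    have b2 : ∀ b, ‖Yf (v * σ) x b - Y x b‖ ≤ 2 * ω := by
      intro b; rw [hY']; exact (h0 b).diff
    have b3 : ∀ b, ‖Y x b‖ ≤ δ := fun b => (h0 b).hY
    have b4 : ∀ b, ‖w x b‖ ≤ ω := fun b => (h0 b).hw
    have r := quad_rem (dv Y x a) (dv Y x a) (dv (Yf (v * σ)) x a - dv Y x a) (dv w x a)
      (e1 := 0) (e2 := 2 * ((κ + 2) * δ * ω)) (b := 2 * δ) (c := 4 * ω)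
      (by simp) (by
        rw [e3]
        refine (norm_sub_le _ _).trans ?_
        have := norm_low_le (fun b => Yf (v * σ) x b - Y x b - w x b) a
          (by positivity : 0 ≤ (κ + 2) * δ * ω) b1
        linarith [b1 a]) (by
        unfold dv
        refine (norm_sub_le _ _).trans ?_
        linarith [b3 a, norm_low_le (Y x) a hδ b3]) (by
        unfold dv
        refine (norm_sub_le _ _).trans ?_
        linarith [b4 a, norm_low_le (w x) a hω b4]) (by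
        rw [e2]
        refine (norm_sub_le _ _).trans ?_
        linarith [b2 a, norm_low_le (fun b => Yf (v * σ) x b - Y x b) a
          (by linarith : 0 ≤ 2 * ω) b2])
    refine r.trans ?_
    have hωω : ω * ω ≤ δ * ω := mul_le_mul_of_nonneg_right hωδ hω
    have : 4 * ω * (2 * ((κ + 2) * δ * ω)) ≤ 8 * (κ + 2) * δ * (δ * ω) := by
      have := mul_le_mul_of_nonneg_left hωω (by positivity : 0 ≤ 8 * (κ + 2) * δ)
      linarith
    nlinarith
  -- plaquettes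
  have hp : ∀ p, |(1 / 2) * ‖Pq (v * σ) x p‖ ^ 2 - (1 / 2) * ‖Pq σ x p‖ ^ 2 -
      (ip (dp Y x p) (dp w x p) + (1 / 2) * ‖dp w x p‖ ^ 2)| ≤ (48 * κ + 304) * (ω * δ ^ 2) := by
    intro p
    have e1 : Pq (v * σ) x p = Pq σ x p + (Pq (v * σ) x p - Pq σ x p) := by abel
    rw [e1]
    obtain ⟨a1, a2⟩ := prod_rem hωδ (h0 (p.1.1, p.2)) (h1 p.1.1 (p.1.2, p.2))
    obtain ⟨c1, c2⟩ := prod_rem hωδ (h0 (p.1.2, p.2)) (h1 p.1.2 (p.1.1, p.2))
    have r := quad_rem (Pq σ x p) (dp Y x p) (Pq (v * σ) x p - Pq σ x p) (dp w x p)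
      (e1 := 2 * δ ^ 2) (e2 := 2 * ((2 * κ + 12) * δ * ω)) (b := 4 * δ) (c := 8 * ω)
      (by
        rw [Pq_eq, add_sub_cancel_left]
        refine (norm_sub_le _ _).trans ?_
        have t1 := norm_mul_le (Yf σ x (p.1.1, p.2)) (Yf σ (x + ev p.1.1) (p.1.2, p.2))
        have t2 := norm_mul_le (Yf σ x (p.1.2, p.2)) (Yf σ (x + ev p.1.2) (p.1.1, p.2))
        have u1 : ‖Yf σ x (p.1.1, p.2)‖ * ‖Yf σ (x + ev p.1.1) (p.1.2, p.2)‖ ≤ δ * δ :=
          mul_le_mul (h0 _).hY (h1 _ _).hY (norm_nonneg _) hδ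
        have u2 : ‖Yf σ x (p.1.2, p.2)‖ * ‖Yf σ (x + ev p.1.2) (p.1.1, p.2)‖ ≤ δ * δ :=
          mul_le_mul (h0 _).hY (h1 _ _).hY (norm_nonneg _) hδ
        nlinarith) (by
        have e : Pq (v * σ) x p - Pq σ x p - dp w x p =
          (mt (v x (p.1.1, p.2) * σ x (p.1.1, p.2)) *
            mt (v (x + ev p.1.1) (p.1.2, p.2) * σ (x + ev p.1.1) (p.1.2, p.2)) -
            mt (σ x (p.1.1, p.2)) * mt (σ (x + ev p.1.1) (p.1.2, p.2)) -
            (w x (p.1.1, p.2) + w (x + ev p.1.1) (p.1.2, p.2))) -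
          (mt (v x (p.1.2, p.2) * σ x (p.1.2, p.2)) *
            mt (v (x + ev p.1.2) (p.1.1, p.2) * σ (x + ev p.1.2) (p.1.1, p.2)) -
            mt (σ x (p.1.2, p.2)) * mt (σ (x + ev p.1.2) (p.1.1, p.2)) -
            (w x (p.1.2, p.2) + w (x + ev p.1.2) (p.1.1, p.2))) := by
          unfold Pq dp; simp only [Pi.mul_apply]; abel
        rw [e]
        refine (norm_sub_le _ _).trans ?_
        linarith) (by
        have := norm_UV_sub (σ x (p.1.1, p.2)) (σ (x + ev p.1.1) (p.1.2, p.2))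
          (σ x (p.1.2, p.2)) (σ (x + ev p.1.2) (p.1.1, p.2))
        unfold Pq
        have t1 := (h0 (p.1.1, p.2)).hY
        have t2 := (h1 p.1.1 (p.1.2, p.2)).hY
        have t3 := (h0 (p.1.2, p.2)).hY
        have t4 := (h1 p.1.2 (p.1.1, p.2)).hY
        linarith) (by
        unfold dp
        have t1 := (h0 (p.1.1, p.2)).hw
        have t2 := (h1 p.1.1 (p.1.2, p.2)).hw
        have t3 := (h0 (p.1.2, p.2)).hw
        have t4 := (h1 p.1.2 (p.1.1, p.2)).hw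
        have s1 := norm_sub_le (w x (p.1.1, p.2) + w (x + ev p.1.1) (p.1.2, p.2) -
          w x (p.1.2, p.2)) (w (x + ev p.1.2) (p.1.1, p.2))
        have s2 := norm_sub_le (w x (p.1.1, p.2) + w (x + ev p.1.1) (p.1.2, p.2))
          (w x (p.1.2, p.2))
        have s3 := norm_add_le (w x (p.1.1, p.2)) (w (x + ev p.1.1) (p.1.2, p.2))
        linarith) (by
        have e : Pq (v * σ) x p - Pq σ x p =
          (mt (v x (p.1.1, p.2) * σ x (p.1.1, p.2)) *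
            mt (v (x + ev p.1.1) (p.1.2, p.2) * σ (x + ev p.1.1) (p.1.2, p.2)) -
            mt (σ x (p.1.1, p.2)) * mt (σ (x + ev p.1.1) (p.1.2, p.2))) -
          (mt (v x (p.1.2, p.2) * σ x (p.1.2, p.2)) *
            mt (v (x + ev p.1.2) (p.1.1, p.2) * σ (x + ev p.1.2) (p.1.1, p.2)) -
            mt (σ x (p.1.2, p.2)) * mt (σ (x + ev p.1.2) (p.1.1, p.2))) := by
          unfold Pq; simp only [Pi.mul_apply]; abel
        rw [e]
        refine (norm_sub_le _ _).trans ?_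
        linarith)
    refine r.trans ?_
    have hωω : ω * ω ≤ δ * ω := mul_le_mul_of_nonneg_right hωδ hω
    have : 8 * ω * (2 * ((2 * κ + 12) * δ * ω)) ≤ 16 * (2 * κ + 12) * δ * (δ * ω) := by
      have := mul_le_mul_of_nonneg_left hωω (by positivity : 0 ≤ 16 * (2 * κ + 12) * δ)
      linarith
    nlinarith
  have hC : (0 : ℝ) ≤ ω * δ ^ 2 := by positivity
  have e : hx (v * σ) x - hx σ x - (bip Y w x + (1 / 2) * bip w w x) =
      ∑ a, ((1 / 2) * ‖dv (Yf (v * σ)) x a‖ ^ 2 - (1 / 2) * ‖dv Y x a‖ ^ 2 -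
      (ip (dv Y x a) (dv w x a) + (1 / 2) * ‖dv w x a‖ ^ 2)) +
      ∑ p ∈ plabs D L, ((1 / 2) * ‖Pq (v * σ) x p‖ ^ 2 - (1 / 2) * ‖Pq σ x p‖ ^ 2 -
      (ip (dp Y x p) (dp w x p) + (1 / 2) * ‖dp w x p‖ ^ 2)) := by
    unfold hx bip
    simp only [Finset.sum_sub_distrib, Finset.sum_add_distrib, ← Finset.mul_sum, ip_self]
    ring
  rw [e]
  have cardp : ((plabs D L).card : ℝ) ≤ D * D * L := by
    have : (plabs D L).card ≤ D * D * L := by
      refine (Finset.card_le_univ _).trans ?_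
      rw [Fintype.card_prod, Fintype.card_prod, Fintype.card_fin, Fintype.card_fin]
    exact_mod_cast this
  calc _ ≤ ∑ a : Lab D L, (12 * κ + 24) * (ω * δ ^ 2) +
        ∑ p ∈ plabs D L, (48 * κ + 304) * (ω * δ ^ 2) := by
        refine (abs_add_le _ _).trans (add_le_add ?_ ?_)
        · exact (Finset.abs_sum_le_sum_abs _ _).trans (Finset.sum_le_sum fun a _ => hv a)
        · exact (Finset.abs_sum_le_sum_abs _ _).trans (Finset.sum_le_sum fun p _ => hp p)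
    _ ≤ _ := by
        rw [Finset.sum_const, Finset.sum_const, Finset.card_univ, nsmul_eq_mul, nsmul_eq_mul,
          Fintype.card_prod, Fintype.card_fin, Fintype.card_fin]
        unfold CT
        push_cast
        have h5 : (0 : ℝ) ≤ (D : ℝ) * L := by positivity
        have h6 : (12 * κ + 24) * (ω * δ ^ 2) ≤ (48 * κ + 304) * (ω * δ ^ 2) :=
          mul_le_mul_of_nonneg_right (by linarith) hC
        have h7 := mul_le_mul_of_nonneg_left h6 h5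
        have h8 := mul_le_mul_of_nonneg_right cardp
          (by positivity : 0 ≤ (48 * κ + 304) * (ω * δ ^ 2))
        nlinarith

end

end Pool.Agent.N990
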