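import Pool.Agent.N990.Slab.Ker
import Pool.Agent.N990.Mach.Iface

/-!
# The slab: geometry
-/

set_option autoImplicit false
set_option linter.unusedSectionVars false

open MeasureTheory Matrix
open scoped Matrix.Norms.Frobenius Classical

namespace Pool.Agent.N990

noncomputable section

variable {D L : ℕ}

lemma dd_le {x y : Site D} {n : ℕ} : dd x y ≤ n ↔ ∀ i, (x i - y i).natAbs ≤ n := by
  unfold dd
  rw [Finset.sup_le_iff]
  simp

lemma dd_self (x : Site D) : dd x x = 0 := by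
  have : dd x x ≤ 0 := dd_le.2 fun i => by simp
  omega

lemma dd_symm (x y : Site D) : dd x y = dd y x := by
  refine le_antisymm (dd_le.2 fun i => ?_) (dd_le.2 fun i => ?_)
  · rw [show x i - y i = -(y i - x i) by ring, Int.natAbs_neg]
    exact dd_le.1 le_rfl i
  · rw [show y i - x i = -(x i - y i) by ring, Int.natAbs_neg]
    exact dd_le.1 le_rfl i

lemma dd_tri (x y z : Site D) : dd x z ≤ dd x y + dd y z := by
  refine dd_le.2 fun i => ?_
  have h1 := dd_le.1 (le_refl (dd x y)) i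
  have h2 := dd_le.1 (le_refl (dd y z)) i
  omega

lemma dd_growth (W : Finset (Site D)) (z : Site D) (r : ℕ) :
    ((W.filter fun y => dd z y ≤ r).card : ℝ) ≤ 2 ^ D * ((r : ℝ) + 1) ^ D := by
  have h1 : (W.filter fun y => dd z y ≤ r) ⊆
      Fintype.piFinset fun i => Finset.Icc (z i - r) (z i + r) := by
    intro y hy
    rw [Fintype.mem_piFinset]
    intro i
    have := dd_le.1 (Finset.mem_filter.1 hy).2 i
    rw [Finset.mem_Icc]
    omega
  have h2 := Finset.card_le_card h1
  rw [Fintype.card_piFinset] at h2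
  have h3 : ∀ i : Fin D, (Finset.Icc (z i - r) (z i + r)).card = 2 * r + 1 := by
    intro i
    rw [Int.card_Icc]
    omega
  simp only [h3, Finset.prod_const, Finset.card_univ, Fintype.card_fin] at h2
  have h4 : ((W.filter fun y => dd z y ≤ r).card : ℝ) ≤ ((2 * r + 1 : ℕ) : ℝ) ^ D := by
    exact_mod_cast h2
  refine h4.trans ?_
  rw [← mul_pow]
  refine pow_le_pow_left₀ (by positivity) ?_ _
  push_cast
  linarith

/-- the support of the term at the base point `x` -/
def spS (x : Site D) : Finset (Site D) := insert x (Finset.univ.image fun i : Fin D => x + ev i)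

lemma mem_spS {x y : Site D} : y ∈ spS x ↔ y = x ∨ ∃ i, x + ev i = y := by
  unfold spS
  rw [Finset.mem_insert, Finset.mem_image]
  simp

lemma ev_apply (i j : Fin D) : (ev i : Site D) j = if j = i then 1 else 0 := by
  unfold ev
  rw [Pi.single_apply]

lemma spS_diam {x y z : Site D} (hy : y ∈ spS x) (hz : z ∈ spS x) : dd y z ≤ 1 := by
  refine dd_le.2 fun i => ?_
  rcases mem_spS.1 hy with rfl | ⟨j, rfl⟩ <;> rcases mem_spS.1 hz with rfl | ⟨k, rfl⟩
  · simp
  · rw [Pi.add_apply, ev_apply]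
    split_ifs <;> simp
  · rw [Pi.add_apply, ev_apply]
    split_ifs <;> simp
  · rw [Pi.add_apply, Pi.add_apply, ev_apply, ev_apply]
    split_ifs <;> simp

open Pool.Agent.N990.Mach

lemma mem_tchG {ι τ : Type*} {T : Finset τ} {sp : τ → Finset ι} {A : Finset ι} {t : τ} :
    t ∈ tch T sp A ↔ t ∈ T ∧ ∃ y ∈ sp t, y ∈ A := by
  unfold tch
  rw [Finset.mem_filter, Finset.not_disjoint_iff]

lemma mem_clG {ι τ : Type*} {T : Finset τ} {sp : τ → Finset ι} {A : Finset ι} {y : ι} :
    y ∈ cl T sp A ↔ ∃ t ∈ tch T sp A, y ∈ sp t := by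
  unfold cl
  rw [Finset.mem_biUnion]

lemma Ns_mono {A B : Finset (Site D)} (h : A ⊆ B) : Ns A ⊆ Ns B := by
  intro x hx
  rw [mem_Ns] at hx ⊢
  rcases hx with hx | ⟨i, hx⟩
  · exact Or.inl (h hx)
  · exact Or.inr ⟨i, h hx⟩

lemma tch_Ns {A V : Finset (Site D)} (h : A ⊆ V) : tch (Ns V) spS A = Ns A := by
  ext x
  rw [mem_tchG]
  constructor
  · rintro ⟨-, y, hy, hyA⟩
    rw [mem_Ns]
    rcases mem_spS.1 hy with rfl | ⟨i, rfl⟩
    · exact Or.inl hyA
    · exact Or.inr ⟨i, hyA⟩
  · intro hx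
    refine ⟨Ns_mono h hx, ?_⟩
    rcases mem_Ns.1 hx with hx | ⟨i, hx⟩
    · exact ⟨x, mem_spS.2 (Or.inl rfl), hx⟩
    · exact ⟨_, mem_spS.2 (Or.inr ⟨i, rfl⟩), hx⟩

lemma card_Ns (A : Finset (Site D)) : (Ns A).card ≤ (D + 1) * A.card := by
  unfold Ns
  refine (Finset.card_union_le _ _).trans ?_
  have h1 : (Finset.univ.biUnion fun i : Fin D => A.image fun x => x - ev i).card ≤
      D * A.card := by
    refine Finset.card_biUnion_le.trans ?_
    calc ∑ i : Fin D, (A.image fun x => x - ev i).card ≤ ∑ i : Fin D, A.card :=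
          Finset.sum_le_sum fun i _ => Finset.card_image_le
      _ = _ := by rw [Finset.sum_const, Finset.card_univ, Fintype.card_fin, smul_eq_mul]
  linarith

lemma tch_sub_Ns {A V : Finset (Site D)} : tch (Ns V) spS A ⊆ Ns A := by
  intro x hx
  rw [mem_tchG] at hx
  obtain ⟨-, y, hy, hyA⟩ := hx
  rw [mem_Ns]
  rcases mem_spS.1 hy with rfl | ⟨i, rfl⟩
  · exact Or.inl hyA
  · exact Or.inr ⟨i, hyA⟩

lemma tcardS (V A : Finset (Site D)) :
    ((tch (Ns V) spS A).card : ℝ) ≤ ((D : ℝ) + 1) * A.card := by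
  have h1 := (Finset.card_le_card (tch_sub_Ns (A := A) (V := V))).trans (card_Ns A)
  exact_mod_cast h1

/-- the closure of `A` -/
def clS (A : Finset (Site D)) : Finset (Site D) := (Ns A).biUnion spS

lemma cl_eq {A V : Finset (Site D)} (h : A ⊆ V) : cl (Ns V) spS A = clS A := by
  ext y
  rw [mem_clG, tch_Ns h]
  unfold clS
  rw [Finset.mem_biUnion]

lemma sub_clS (A : Finset (Site D)) : A ⊆ clS A := by
  intro x hx
  refine Finset.mem_biUnion.2 ⟨x, mem_Ns.2 (Or.inl hx), mem_spS.2 (Or.inl rfl)⟩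

/-- each site is in at most `D + 1` supports -/
lemma sum_sp_le (B C : Finset (Site D)) (f : Site D → ℝ) (hf : ∀ x, 0 ≤ f x)
    (hB : ∀ x ∈ B, spS x ⊆ C) :
    ∑ x ∈ B, (f x + ∑ i : Fin D, f (x + ev i)) ≤ ((D : ℝ) + 1) * ∑ y ∈ C, f y := by
  rw [Finset.sum_add_distrib, Finset.sum_comm, add_mul, one_mul, add_comm]
  refine add_le_add ?_ ?_
  · calc ∑ i : Fin D, ∑ x ∈ B, f (x + ev i) ≤ ∑ i : Fin D, ∑ y ∈ C, f y := by
          refine Finset.sum_le_sum fun i _ => ?_
          rw [← Finset.sum_image (f := f) (g := fun x => x + ev i)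
            fun x _ y _ h => add_right_cancel h]
          refine Finset.sum_le_sum_of_subset_of_nonneg ?_ fun y _ _ => hf y
          intro y hy
          obtain ⟨x, hx, rfl⟩ := Finset.mem_image.1 hy
          exact hB x hx (mem_spS.2 (Or.inr ⟨i, rfl⟩))
      _ = _ := by rw [Finset.sum_const, Finset.card_univ, Fintype.card_fin, nsmul_eq_mul]
  · exact Finset.sum_le_sum_of_subset_of_nonneg (fun x hx => hB x hx (mem_spS.2 (Or.inl rfl)))
      fun y _ _ => hf y

end

end Pool.Agent.N990
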