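import Pool.Agent.N990.Slab.Inst
import Pool.Agent.N991.MK.Vol
import Pool.Agent.Y274.YMTan
import Pool.Agent.TH618.YM.Cartan

/-!
# Facts on closed subgroups of the unitary group
-/

set_option autoImplicit false
set_option linter.unusedSectionVars false

open MeasureTheory Matrix
open scoped Matrix.Norms.Frobenius Classical ENNReal

namespace Pool.Agent.N990

noncomputable section

variable {N : ℕ} {G : Subgroup (UU N)}

lemma exp_unit {w : Mt N} (hw : ∀ t : ℝ, ∃ g : G, mt g = NormedSpace.exp (t • w)) (t : ℝ)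
    (A : Mt N) : ‖(NormedSpace.exp (t • w) : Mt N) * A‖ = ‖A‖ := by
  obtain ⟨g, hg⟩ := hw t
  rw [← hg, norm_mt_mul]

lemma exp_first {w : Mt N} (hw : ∀ t : ℝ, ∃ g : G, mt g = NormedSpace.exp (t • w)) (t : ℝ) :
    ‖(NormedSpace.exp (t • w) : Mt N) - 1‖ ≤ ‖w‖ * |t| := by
  have h := Convex.norm_image_sub_le_of_norm_hasDerivWithin_le (s := Set.univ)
    (f := fun s : ℝ => (NormedSpace.exp (s • w) : Mt N))
    (f' := fun s => NormedSpace.exp (s • w) * w) (x := 0) (y := t) (C := ‖w‖)
    (fun s _ => (hasDerivAt_exp_smul_const (𝕂 := ℝ) w s).hasDerivWithinAt)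
    (fun s _ => (exp_unit hw s w).le) convex_univ (Set.mem_univ _) (Set.mem_univ _)
  simp only [zero_smul, NormedSpace.exp_zero, sub_zero, Real.norm_eq_abs] at h
  exact h

lemma exp_second {w : Mt N} (hw : ∀ t : ℝ, ∃ g : G, mt g = NormedSpace.exp (t • w)) :
    ‖(NormedSpace.exp w : Mt N) - 1 - w‖ ≤ ‖w‖ ^ 2 := by
  have h := Convex.norm_image_sub_le_of_norm_hasDerivWithin_le (s := Set.Icc (0 : ℝ) 1)
    (f := fun s : ℝ => (NormedSpace.exp (s • w) : Mt N) - 1 - s • w)
    (f' := fun s => NormedSpace.exp (s • w) * w - w) (x := 0) (y := 1) (C := ‖w‖ ^ 2)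
    (fun s _ => by
      have h1 := ((hasDerivAt_exp_smul_const (𝕂 := ℝ) w s).sub_const 1).sub
        ((hasDerivAt_id s).smul_const w)
      rw [one_smul] at h1
      exact h1.hasDerivWithinAt) (fun s hs => by
      have h1 : NormedSpace.exp (s • w) * w - w = (NormedSpace.exp (s • w) - 1) * w := by
        rw [sub_mul, one_mul]
      rw [h1]
      refine (norm_mul_le _ _).trans ?_
      have h2 := exp_first hw s
      rw [abs_of_nonneg hs.1] at h2
      have h3 : ‖(NormedSpace.exp (s • w) : Mt N) - 1‖ ≤ ‖w‖ :=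
        h2.trans (mul_le_of_le_one_right (norm_nonneg _) hs.2)
      calc ‖(NormedSpace.exp (s • w) : Mt N) - 1‖ * ‖w‖ ≤ ‖w‖ * ‖w‖ :=
            mul_le_mul_of_nonneg_right h3 (norm_nonneg _)
        _ = _ := (sq _).symm) (convex_Icc 0 1) (by simp) (by simp)
  simp only [one_smul, zero_smul, NormedSpace.exp_zero, sub_self, sub_zero, norm_one, mul_one] at h
  exact h

open Pool.Agent.Y274 in
/-- **Closed subgroups have the Lie group structure which is needed.** -/
theorem exists_lieG (hG : IsClosed (G : Set (UU N))) : Nonempty (LieG G) := by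
  obtain ⟨n, ⟨B⟩⟩ := Pool.Agent.TH618.YM.exists_frame (G := G) hG
  have hex : ∀ a (t : ℝ), NormedSpace.exp (t • B.X a) ∈ YMTan.S G := fun a t =>
    ⟨B.ex a t, B.ex_eq a t⟩
  have hspan : ∀ Y ∈ Submodule.span ℝ (Set.range B.X), ∀ t : ℝ,
      ∃ g : G, mt g = NormedSpace.exp (t • Y) := by
    intro Y hY t
    exact YMTan.lie_span hG B.X hex Y hY t
  obtain ⟨C, hC, hT⟩ := YMTan.tangent G hG B.X B.orth (fun a t => ⟨B.ex a t, B.ex_eq a t⟩) B.full
  have hP1 : YMTan.P B.X 1 = 0 := by
    have h := hT 1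
    have e : (((1 : G) : UU N) : Mt N) = 1 := rfl
    rw [e, sub_self, norm_zero, zero_sub, norm_neg] at h
    rw [YMTan.P_apply]
    have h2 : C * (0 : ℝ) ^ 2 = 0 := by ring
    rw [h2] at h
    exact norm_le_zero_iff.1 h
  have hPn : ∀ M : Mt N, ‖YMTan.P B.X M‖ ≤ ‖M‖ := by
    intro M
    -- orthogonal projection
    have h1 : ip (YMTan.P B.X M) (YMTan.P B.X M) = ip (YMTan.P B.X M) M := by
      rw [YMTan.P_apply, ip_sum_left, ip_sum_left]
      refine Finset.sum_congr rfl fun a _ => ?_
      rw [ip_smul_left, ip_smul_left, ip_sum_right]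
      congr 1
      have h2 : ∀ b, ip (B.X a) ((trace ((B.X b)ᴴ * M)).re • B.X b) =
          if a = b then (trace ((B.X b)ᴴ * M)).re else 0 := by
        intro b
        rw [ip_smul_right]
        have := B.orth a b
        unfold ip
        rw [this]
        split_ifs <;> simp
      simp only [h2, Finset.sum_ite_eq, Finset.mem_univ, if_true]
      rfl
    have h3 := ip_le (YMTan.P B.X M) M
    rw [← h1, ip_self, abs_of_nonneg (by positivity)] at h3
    rcases eq_or_lt_of_le (norm_nonneg (YMTan.P B.X M)) with h4 | h4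
    · rw [← h4]; exact norm_nonneg _
    · rw [sq] at h3
      exact le_of_mul_le_mul_left h3 h4
  choose E hE using fun w : Submodule.span ℝ (Set.range B.X) => hspan w w.2 1
  refine ⟨{ g := Submodule.span ℝ (Set.range B.X)
            P := YMTan.P B.X
            C := C
            hC := hC.le
            P_mem := YMTan.P_mem B.X
            P_norm := hPn
            P_est := fun h => ?_
            E := E
            E_est := fun w _ => ?_ }⟩
  · have h1 := hT h
    have e : YMTan.P B.X (mt h - 1) = YMTan.P B.X (mt h) := by rw [map_sub, hP1, sub_zero]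
    rw [e, YMTan.P_apply]
    exact h1
  · rw [hE w, one_smul]
    exact exp_second (G := G) (hspan w w.2)

/-! ### Volume -/

section vol

variable [MeasurableSpace G] [BorelSpace G]

lemma vol_pi {D L : ℕ} (μ : Measure G) [IsProbabilityMeasure μ] [μ.IsMulLeftInvariant] :
    ∃ cv : ℝ, 0 < cv ∧ ∃ nv : ℝ, 0 ≤ nv ∧ ∀ s : ℝ, 0 < s → s ≤ 1 →
      ENNReal.ofReal (cv * s ^ nv) ≤
        Measure.pi (fun _ : Lab D L => μ) {k : Lab D L → G | nrmS k ≤ s} := by
  obtain ⟨c, hc, d, h⟩ := Pool.Agent.N991.MK.vol_lower_ofReal (N := N) (G := G) μ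
  refine ⟨c ^ (Fintype.card (Lab D L)), by positivity, d * Fintype.card (Lab D L), by positivity,
    fun s hs hs1 => ?_⟩
  have e : {k : Lab D L → G | nrmS k ≤ s} =
      Set.univ.pi fun _ : Lab D L => {g : G | ‖mt g - 1‖ ≤ s} := by
    ext k
    simp only [Set.mem_ofPred_eq, Set.mem_pi, Set.mem_univ, true_implies]
    exact nrmS_le hs.le
  rw [e, Measure.pi_pi, Finset.prod_const, Finset.card_univ]
  have h1 := pow_le_pow_left' (h s hs hs1) (Fintype.card (Lab D L))
  refine le_trans (le_of_eq ?_) h1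
  rw [← ENNReal.ofReal_pow (by positivity), mul_pow, ← pow_mul]
  congr 2
  rw [← Real.rpow_natCast]
  push_cast
  rfl

end vol

end

end Pool.Agent.N990
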