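import Pool.Agent.N990.Slab.Lin
import Pool.Agent.N109.Slab.HK
import Pool.Agent.N990.Mach.Ratio

/-!
# The slab as a system of the machine
-/

set_option autoImplicit false
set_option linter.unusedSectionVars false

open MeasureTheory Matrix
open scoped Matrix.Norms.Frobenius Classical ENNReal

namespace Pool.Agent.N990

noncomputable section

open Pool.Agent.N990.Mach Pool.Agent.N109.Slab

/-- Facts on the group which are used: projection on the Lie algebra and exponential. -/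
structure LieG {N : ℕ} (G : Subgroup (UU N)) where
  g : Submodule ℝ (Mt N)
  P : Mt N → Mt N
  C : ℝ
  hC : 0 ≤ C
  P_mem : ∀ x, P x ∈ g
  P_norm : ∀ x, ‖P x‖ ≤ ‖x‖
  P_est : ∀ h : G, ‖mt h - 1 - P (mt h - 1)‖ ≤ C * ‖mt h - 1‖ ^ 2
  E : g → G
  E_est : ∀ w : g, ‖w‖ ≤ 1 → ‖mt (E w) - 1 - (w : Mt N)‖ ≤ ‖w‖ ^ 2

variable {N D L : ℕ} {G : Subgroup (UU N)}

/-- The relation: `v` is close to `1 + w`. -/
def RelS (X : LieG G) (δ ω : ℝ) (v : Lab D L → G) (w : Lab D L → X.g) : Prop :=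
  ∀ a, ‖(w a : Mt N)‖ ≤ ω ∧ ‖mt (v a) - 1‖ ≤ 2 * ω ∧
    ‖mt (v a) - 1 - (w a : Mt N)‖ ≤ (X.C + 1) * δ * ω

/-- The constants of the slab. -/
def cstS (X : LieG G) (D L : ℕ) (α cv nv : ℝ) (hL : 0 < lam0 L) (hα : 0 < α) (hcv : 0 < cv)
    (hnv : 0 ≤ nv) : Cst where
  Cg := 2 ^ D
  Dg := D
  C0 := (4 * D + 4) * ((D + 1) * (D * L)) + 1
  c0 := lam0 L / 2
  Cn := D + 1
  CT := CT D L (X.C + 1)
  Cb := CB D L
  Ch := |CK D L α * (D * L)| + 1
  al := α
  cv := cv
  nv := nv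
  r0 := 1
  nm := 2 * N + 1
  hCg := one_le_pow₀ (by norm_num)
  hC0 := by
    have : (0 : ℝ) ≤ (4 * D + 4) * ((D + 1) * (D * L)) := by positivity
    linarith
  hc0 := by positivity
  hCn := by
    have : (0 : ℝ) ≤ D := Nat.cast_nonneg _
    linarith
  hCT := by
    have := X.hC
    unfold CT
    positivity
  hCb := CB_nonneg D L
  hCh := by
    have := abs_nonneg (CK D L α * (D * L))
    linarith
  hal := hα
  hcv := hcv
  hnv := hnv
  hr0 := one_pos
  hr1 := le_rfl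
  hnm := by
    have : (0 : ℝ) ≤ N := Nat.cast_nonneg _
    linarith

lemma coe_norm_pi {X : LieG G} (w : Lab D L → X.g) (a : Lab D L) : ‖(w a : Mt N)‖ ≤ ‖w‖ := by
  exact norm_le_pi_norm w a

/-- the matrix field of a Lie algebra field -/
def cf (X : LieG G) (w : Site D → Lab D L → X.g) : Site D → Lab D L → Mt N :=
  fun x a => (w x a : Mt N)

lemma harmS (X : LieG G) {α : ℝ} (hα : 0 < α) (h : 2 * Real.cosh α - 2 < lam0 L)
    (A V : Finset (Site D)) (hAV : A ⊆ V) (z : Site D → Lab D L → X.g) :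
    ∃ w : Site D → Lab D L → X.g, (∀ y, y ∉ A → w y = z y) ∧
      (∀ φ : Site D → Lab D L → Mt N, (∀ y, y ∉ A → φ y = 0) →
        ∑ t ∈ tch (Ns V) spS A, bip φ (cf X w) t = 0) ∧
      ∀ y ∈ A, ‖w y‖ ≤ (|CK D L α * (D * L)| + 1) *
        ∑ x ∈ cl (Ns V) spS A \ A, Real.exp (-(α * dd y x)) * ‖z x‖ := by
  obtain ⟨w, h1, h2, h3, h4⟩ := exists_harm D L hα.le h A (Mt N) X.g (cf X z)
    (fun x a => (z x a).2)
  refine ⟨fun x a => ⟨w x a, h2 x a⟩, fun y hy => ?_, fun φ hφ => ?_, fun y hy => ?_⟩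
  · funext a
    apply Subtype.ext
    show w y a = _
    rw [h1 y hy]; rfl
  · rw [tch_Ns hAV]
    exact harm_bip (w := w) h3 φ hφ
  · have e1 : cl (Ns V) spS A \ A = bdA A := by
      ext x
      rw [Finset.mem_sdiff, mem_bdA, cl_eq hAV]
      refine and_congr_left fun _ => ?_
      unfold clS
      rw [Finset.mem_biUnion]
      constructor
      · rintro ⟨t, ht, hx⟩
        rcases mem_spS.1 hx with rfl | ⟨i, rfl⟩
        · exact Or.inl ht
        · exact Or.inr ⟨i, t, ht, rfl⟩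
      · rintro (h | ⟨i, t, ht, rfl⟩)
        · exact ⟨x, h, mem_spS.2 (Or.inl rfl)⟩
        · exact ⟨t, ht, mem_spS.2 (Or.inr ⟨i, rfl⟩)⟩
    rw [e1]
    have hs0 : 0 ≤ ∑ x ∈ bdA A, Real.exp (-(α * dd y x)) * ‖z x‖ :=
      Finset.sum_nonneg fun x _ => by positivity
    refine (pi_norm_le_iff_of_nonneg (by positivity)).2 fun a => ?_
    have h5 := h4 y hy a
    have h6 : ‖(⟨w y a, h2 y a⟩ : X.g)‖ = ‖w y a‖ := rfl
    rw [h6]
    refine h5.trans ?_
    have hCK : 0 ≤ CK D L α := by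
      unfold CK
      have : 0 < lam0 L - (2 * Real.cosh α - 2) := by linarith
      positivity
    have h7 : ∑ y' ∈ bdA A, Real.exp (-(α * dd y y')) * ∑ b, ‖cf X z y' b‖ ≤
        (D * L) * ∑ x ∈ bdA A, Real.exp (-(α * dd y x)) * ‖z x‖ := by
      rw [Finset.mul_sum]
      refine Finset.sum_le_sum fun x _ => ?_
      have h8 : ∑ b : Lab D L, ‖cf X z x b‖ ≤ (D * L) * ‖z x‖ := by
        calc ∑ b : Lab D L, ‖cf X z x b‖ ≤ ∑ b : Lab D L, ‖z x‖ :=
              Finset.sum_le_sum fun b _ => coe_norm_pi (z x) b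
          _ = _ := by
              rw [Finset.sum_const, Finset.card_univ, nsmul_eq_mul, Fintype.card_prod,
                Fintype.card_fin, Fintype.card_fin]
              push_cast; ring
      have h9 := mul_le_mul_of_nonneg_left h8 (Real.exp_pos (-(α * dd y x))).le
      linarith
    calc CK D L α * ∑ y' ∈ bdA A, Real.exp (-(α * dd y y')) * ∑ b, ‖cf X z y' b‖ ≤
          CK D L α * ((D * L) * ∑ x ∈ bdA A, Real.exp (-(α * dd y x)) * ‖z x‖) :=
          mul_le_mul_of_nonneg_left h7 hCK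
      _ = (CK D L α * (D * L)) * ∑ x ∈ bdA A, Real.exp (-(α * dd y x)) * ‖z x‖ := by ring
      _ ≤ _ := by
          refine mul_le_mul_of_nonneg_right ?_ hs0
          have := le_abs_self (CK D L α * (D * L))
          linarith

section sys

variable [MeasurableSpace G] [BorelSpace G]

/-- **The slab system** in the finite volume `V`. -/
def sysS (μ : Measure G) (X : LieG G) {α cv nv : ℝ} (hL : 0 < lam0 L) (hα : 0 < α)
    (h : 2 * Real.cosh α - 2 < lam0 L) (hcv : 0 < cv) (hnv : 0 ≤ nv)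
    (hvol : ∀ s : ℝ, 0 < s → s ≤ 1 → ENNReal.ofReal (cv * s ^ nv) ≤
      Measure.pi (fun _ : Lab D L => μ) {k | nrmS k ≤ s}) (V : Finset (Site D)) :
    Sys (Site D) (Site D) (Lab D L → G) (Lab D L → Mt N) (Lab D L → X.g)
      (Measure.pi fun _ : Lab D L => μ) (cstS X D L α cv nv hL hα hcv hnv) where
  d := dd
  dself := dd_self
  dsymm := dd_symm
  dtri := fun a b x => dd_tri a b x
  growth := fun W z r => by
    have h1 := dd_growth W z r
    show _ ≤ (2 : ℝ) ^ D * ((r : ℝ) + 1) ^ D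
    refine le_trans (le_of_eq ?_) h1
    congr
  Lam := V
  T := Ns V
  sp := spS
  diam := fun t _ x hx y hy => spS_diam hx hy
  tcard := fun A => tcardS V A
  h := fun x σ => hx σ x
  hloc := fun x _ σ σ' h => hx_loc x σ σ' h
  hmeas := fun x _ => meas_hx x
  hbd := fun x _ => ⟨_, fun σ => hx_bd σ x⟩
  nrm := nrmS
  nrm_meas := meas_nrmS
  nrm_nonneg := nrmS_nonneg
  nrm_one := nrmS_one
  nrm_mul := nrmS_mul
  nrm_inv := nrmS_inv
  nrm_le := nrmS_bd
  vol := hvol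
  upper := fun A hA σ => by
    rw [tch_Ns hA, cl_eq hA]
    have h1 := upperS A σ
    show _ ≤ ((4 * (D : ℝ) + 4) * ((D + 1) * (D * L)) + 1) * _
    refine le_trans h1 (le_of_eq ?_)
    congr
    funext a b
    exact Subsingleton.elim _ _
  coer := fun A hA σ => by
    rw [tch_Ns hA]
    exact coerS A σ
  yy := yyS
  yy_le := fun k _ => by
    have := nrmS_nonneg k
    show nrmS k ≤ _
    linarith
  p := fun k a => ⟨X.P (mt (k a) - 1), X.P_mem _⟩
  ex := fun w a => X.E (w a)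
  Rel := RelS X
  rel_p := fun δ ω k hk hωδ hδ a => by
    have h1 := (le_nrmS k a).trans hk
    have h0 : 0 ≤ ω := (norm_nonneg _).trans h1
    refine ⟨(X.P_norm _).trans h1, by linarith, (X.P_est (k a)).trans ?_⟩
    have hC := X.hC
    have h2 : ‖mt (k a) - 1‖ ^ 2 ≤ δ * ω := by
      rw [sq]
      exact mul_le_mul (h1.trans hωδ) h1 (norm_nonneg _) (h0.trans hωδ)
    have h3 := mul_le_mul_of_nonneg_left h2 hC
    have h4 : 0 ≤ δ * ω := mul_nonneg (h0.trans hωδ) h0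
    linarith
  p_le := fun ω k hk hω => by
    have h0 : 0 ≤ ω := (nrmS_nonneg k).trans hk
    refine (pi_norm_le_iff_of_nonneg h0).2 fun a => ?_
    exact (X.P_norm _).trans ((le_nrmS k a).trans hk)
  rel_ex := fun δ ω w hw hωδ hδ a => by
    have h0 : 0 ≤ ω := (norm_nonneg _).trans hw
    have h1 : ‖(w a : Mt N)‖ ≤ ω := (coe_norm_pi w a).trans hw
    have hδ1 : δ ≤ 1 := hδ
    have h2 := X.E_est (w a) (h1.trans (hωδ.trans hδ1))
    have h3 : ‖w a‖ ^ 2 ≤ δ * ω := by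
      rw [sq]
      exact mul_le_mul (h1.trans hωδ) h1 (norm_nonneg _) (h0.trans hωδ)
    have h4 : ‖w a‖ ^ 2 ≤ 1 * ω := by
      rw [sq]
      exact mul_le_mul (h1.trans (hωδ.trans hδ1)) h1 (norm_nonneg _) (by norm_num)
    have hC := X.hC
    refine ⟨h1, ?_, (h2.trans h3).trans ?_⟩
    · have e : mt (X.E (w a)) - 1 = (mt (X.E (w a)) - 1 - (w a : Mt N)) + (w a : Mt N) := by abel
      rw [e]
      refine (norm_add_le _ _).trans ?_
      linarith
    · have h4 : 0 ≤ δ * ω := mul_nonneg (h0.trans hωδ) h0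
      nlinarith
  ex_nrm := fun ω w hw hω => by
    have h0 : 0 ≤ ω := (norm_nonneg _).trans hw
    have hω1 : ω ≤ 1 := hω
    refine (nrmS_le (by linarith)).2 fun a => ?_
    have h1 : ‖(w a : Mt N)‖ ≤ ω := (coe_norm_pi w a).trans hw
    have h2 := X.E_est (w a) (h1.trans hω1)
    have h4 : ‖w a‖ ^ 2 ≤ 1 * ω := by
      rw [sq]
      exact mul_le_mul (h1.trans hω1) h1 (norm_nonneg _) (by norm_num)
    have e : mt (X.E (w a)) - 1 = (mt (X.E (w a)) - 1 - (w a : Mt N)) + (w a : Mt N) := by abel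
    rw [e]
    refine (norm_add_le _ _).trans ?_
    linarith
  rel_one := fun δ ω h0 hωδ a => by
    have hC := X.hC
    have h1 : 0 ≤ (X.C + 1) * δ * ω := by
      have : 0 ≤ δ := h0.trans hωδ
      positivity
    refine ⟨?_, ?_, ?_⟩
    · simpa using h0
    · simpa using h0
    · simpa using h1
  b := fun t φ w => bip φ (cf X w) t
  cc := fun t w => (1 / 2) * bip (cf X w) (cf X w) t
  b_add := fun t φ φ' w => bip_add_left φ φ' (cf X w) t
  b_bd := fun t _ φ w x y hφ hw => by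
    have hx0 : 0 ≤ x := (norm_nonneg _).trans (hφ t (mem_spS.2 (Or.inl rfl)))
    have hy0 : 0 ≤ y := (norm_nonneg _).trans (hw t (mem_spS.2 (Or.inl rfl)))
    exact bip_le φ (cf X w) t hx0 hy0
      (fun a => (norm_le_pi_norm (φ t) a).trans (hφ t (mem_spS.2 (Or.inl rfl))))
      (fun i a => (norm_le_pi_norm (φ (t + ev i)) a).trans
        (hφ _ (mem_spS.2 (Or.inr ⟨i, rfl⟩))))
      (fun a => (coe_norm_pi (w t) a).trans (hw t (mem_spS.2 (Or.inl rfl))))
      (fun i a => (coe_norm_pi (w (t + ev i)) a).trans (hw _ (mem_spS.2 (Or.inr ⟨i, rfl⟩))))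
  cc_bd := fun t _ w y hw => by
    have hy0 : 0 ≤ y := (norm_nonneg _).trans (hw t (mem_spS.2 (Or.inl rfl)))
    have h1 := bip_le (cf X w) (cf X w) t hy0 hy0
      (fun a => (coe_norm_pi (w t) a).trans (hw t (mem_spS.2 (Or.inl rfl))))
      (fun i a => (coe_norm_pi (w (t + ev i)) a).trans (hw _ (mem_spS.2 (Or.inr ⟨i, rfl⟩))))
      (fun a => (coe_norm_pi (w t) a).trans (hw t (mem_spS.2 (Or.inl rfl))))
      (fun i a => (coe_norm_pi (w (t + ev i)) a).trans (hw _ (mem_spS.2 (Or.inr ⟨i, rfl⟩))))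
    rw [abs_mul, abs_of_pos (by norm_num : (0 : ℝ) < 1 / 2)]
    have h2 := abs_nonneg (bip (cf X w) (cf X w) t)
    have h3 : CB D L * y * y = CB D L * y ^ 2 := by ring
    show _ ≤ CB D L * y ^ 2
    linarith
  taylor := fun t _ σ v w δ ω h0 hωδ hδ hσ hv => by
    have hC := X.hC
    refine taylor_site (κ := X.C + 1) (by linarith) hωδ h0 σ v (cf X w) t (fun a => ?_)
      fun i a => ?_
    · obtain ⟨a1, a2, a3⟩ := hv t (mem_spS.2 (Or.inl rfl)) a
      exact ⟨(le_nrmS (σ t) a).trans (hσ t (mem_spS.2 (Or.inl rfl))), a1, a2, a3⟩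
    · obtain ⟨a1, a2, a3⟩ := hv (t + ev i) (mem_spS.2 (Or.inr ⟨i, rfl⟩)) a
      exact ⟨(le_nrmS (σ (t + ev i)) a).trans (hσ _ (mem_spS.2 (Or.inr ⟨i, rfl⟩))), a1, a2, a3⟩
  harm := fun A hA z => by
    obtain ⟨w, h1, h2, h3⟩ := harmS X hα h A V hA z
    refine ⟨w, h1, h2, fun y hy => ?_⟩
    have h4 := h3 y hy
    show _ ≤ (|CK D L α * (D * L)| + 1) * _
    refine le_trans h4 (le_of_eq ?_)
    congr
    funext a b
    exact Subsingleton.elim _ _

end sys

end

end Pool.Agent.N990
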