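import Pool.Agent.N990.Slab.Geo

/-!
# The slab: the quadratic form, sizes of spins, measurability
-/

set_option autoImplicit false
set_option linter.unusedSectionVars false

open MeasureTheory Matrix
open scoped Matrix.Norms.Frobenius Classical

namespace Pool.Agent.N990

noncomputable section

variable {N D L : ℕ} {G : Subgroup (UU N)}

/-! ### The bilinear form -/

lemma bip_add_left (φ φ' ψ : Site D → Lab D L → Mt N) (x : Site D) :
    bip (φ + φ') ψ x = bip φ ψ x + bip φ' ψ x := by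
  unfold bip
  simp only [dv_add, dp_add, ip_add_left, Finset.sum_add_distrib]; ring

lemma bip_sum_left {ι : Type*} (s : Finset ι) (φ : ι → Site D → Lab D L → Mt N)
    (ψ : Site D → Lab D L → Mt N) (x : Site D) :
    bip (∑ i ∈ s, φ i) ψ x = ∑ i ∈ s, bip (φ i) ψ x := by
  induction s using Finset.induction_on with
  | empty =>
    simp only [Finset.sum_empty]
    have h := bip_add_left (0 : Site D → Lab D L → Mt N) 0 ψ x
    rw [add_zero] at h
    linarith
  | insert a s ha ih => rw [Finset.sum_insert ha, Finset.sum_insert ha, bip_add_left, ih]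

/-- scalar field times matrix -/
def tn (k : Site D → Lab D L → ℝ) (e : Mt N) : Site D → Lab D L → Mt N := fun x a => k x a • e

lemma dv_tn (k : Site D → Lab D L → ℝ) (e : Mt N) (x : Site D) (a : Lab D L) :
    dv (tn k e) x a = dv k x a • e := by
  have h : low (tn k e x) a = low (k x) a • e := by
    unfold low tn; split_ifs <;> simp
  unfold dv
  rw [h]; unfold tn; rw [sub_smul]

lemma dp_tn (k : Site D → Lab D L → ℝ) (e : Mt N) (x : Site D) (p : (Fin D × Fin D) × Fin L) :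
    dp (tn k e) x p = dp k x p • e := by
  unfold dp tn
  rw [sub_smul, sub_smul, add_smul]

lemma bip_tn (k : Site D → Lab D L → ℝ) (e : Mt N) (w : Site D → Lab D L → Mt N) (x : Site D) :
    bip (tn k e) w x = ip e (bx k w x) := by
  unfold bip bx
  simp only [dv_tn, dp_tn, ip_smul_left]
  rw [ip_add_right, ip_sum_right, ip_sum_right]
  simp only [ip_smul_right]

/-- harmonic fields are orthogonal to all matrix valued fields supported in `A` -/
lemma harm_bip {A : Finset (Site D)} {w : Site D → Lab D L → Mt N} (hw : Harm A w)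
    (φ : Site D → Lab D L → Mt N) (hφ : ∀ x, x ∉ A → φ x = 0) :
    ∑ x ∈ Ns A, bip φ w x = 0 := by
  let B := Module.finBasis ℝ (Mt N)
  have h1 : φ = ∑ k, tn (fun x a => B.repr (φ x a) k) (B k) := by
    funext x a
    simp only [Finset.sum_apply, tn]
    exact (B.sum_repr (φ x a)).symm
  have h2 : ∀ x, bip φ w x = ∑ k, ip (B k) (bx (fun x a => B.repr (φ x a) k) w x) := by
    intro x
    conv_lhs => rw [h1]
    rw [bip_sum_left]
    simp only [bip_tn]
  simp only [h2]
  rw [Finset.sum_comm]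
  refine Finset.sum_eq_zero fun k _ => ?_
  rw [← ip_sum_right, harm_iff.1 hw _ fun x hx => ?_, ip_zero_right]
  funext a
  rw [hφ x hx]
  simp

lemma low_le {E : Type*} [NormedAddCommGroup E] {φ : Lab D L → E} {X : ℝ} (hX : 0 ≤ X)
    (h : ∀ a, ‖φ a‖ ≤ X) (a : Lab D L) : ‖low φ a‖ ≤ X := norm_low_le φ a hX h

/-- the constant of the bilinear form -/
def CB (D L : ℕ) : ℝ := 4 * (D * L) + 16 * (D * D * L)

lemma CB_nonneg (D L : ℕ) : 0 ≤ CB D L := by unfold CB; positivity

lemma card_plabs_le (D L : ℕ) : ((plabs D L).card : ℝ) ≤ D * D * L := by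
  have h := Finset.card_le_card (Finset.filter_subset (fun p : (Fin D × Fin D) × Fin L =>
    p.1.1 < p.1.2) Finset.univ)
  rw [Finset.card_univ, Fintype.card_prod, Fintype.card_prod, Fintype.card_fin,
    Fintype.card_fin] at h
  exact_mod_cast h

lemma bip_le (φ ψ : Site D → Lab D L → Mt N) (x : Site D) {X Z : ℝ} (hX : 0 ≤ X) (hZ : 0 ≤ Z)
    (h1 : ∀ a, ‖φ x a‖ ≤ X) (h2 : ∀ i a, ‖φ (x + ev i) a‖ ≤ X)
    (h3 : ∀ a, ‖ψ x a‖ ≤ Z) (h4 : ∀ i a, ‖ψ (x + ev i) a‖ ≤ Z) :
    |bip φ ψ x| ≤ CB D L * X * Z := by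
  have hdv : ∀ (φ : Site D → Lab D L → Mt N) (X : ℝ), 0 ≤ X → (∀ a, ‖φ x a‖ ≤ X) →
      ∀ a, ‖dv φ x a‖ ≤ 2 * X := by
    intro φ X hX h a
    unfold dv
    have := norm_sub_le (φ x a) (low (φ x) a)
    have := low_le hX h a
    have := h a
    linarith
  have hdp : ∀ (φ : Site D → Lab D L → Mt N) (X : ℝ), (∀ a, ‖φ x a‖ ≤ X) →
      (∀ i a, ‖φ (x + ev i) a‖ ≤ X) → ∀ p, ‖dp φ x p‖ ≤ 4 * X := by
    intro φ X h h' p
    unfold dp
    refine (norm_sub_le _ _).trans ?_
    have e1 := norm_sub_le (φ x (p.1.1, p.2) + φ (x + ev p.1.1) (p.1.2, p.2)) (φ x (p.1.2, p.2))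
    have e2 := norm_add_le (φ x (p.1.1, p.2)) (φ (x + ev p.1.1) (p.1.2, p.2))
    have e3 := h (p.1.1, p.2)
    have e4 := h (p.1.2, p.2)
    have e5 := h' p.1.1 (p.1.2, p.2)
    have e6 := h' p.1.2 (p.1.1, p.2)
    linarith
  unfold bip
  refine (abs_add_le _ _).trans ?_
  have s1 : |∑ a, ip (dv φ x a) (dv ψ x a)| ≤ (D * L) * (4 * (X * Z)) := by
    refine (Finset.abs_sum_le_sum_abs _ _).trans ?_
    calc ∑ a : Lab D L, |ip (dv φ x a) (dv ψ x a)| ≤ ∑ a : Lab D L, 4 * (X * Z) := by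
          refine Finset.sum_le_sum fun a _ => (ip_le _ _).trans ?_
          calc ‖dv φ x a‖ * ‖dv ψ x a‖ ≤ (2 * X) * (2 * Z) :=
                mul_le_mul (hdv φ X hX h1 a) (hdv ψ Z hZ h3 a) (norm_nonneg _) (by positivity)
            _ = _ := by ring
      _ = _ := by
          rw [Finset.sum_const, Finset.card_univ, nsmul_eq_mul, Fintype.card_prod,
            Fintype.card_fin, Fintype.card_fin]
          push_cast; ring
  have s2 : |∑ p ∈ plabs D L, ip (dp φ x p) (dp ψ x p)| ≤ (D * D * L) * (16 * (X * Z)) := by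
    refine (Finset.abs_sum_le_sum_abs _ _).trans ?_
    calc ∑ p ∈ plabs D L, |ip (dp φ x p) (dp ψ x p)| ≤ ∑ p ∈ plabs D L, 16 * (X * Z) := by
          refine Finset.sum_le_sum fun a _ => (ip_le _ _).trans ?_
          calc ‖dp φ x a‖ * ‖dp ψ x a‖ ≤ (4 * X) * (4 * Z) :=
                mul_le_mul (hdp φ X h1 h2 a) (hdp ψ Z h3 h4 a) (norm_nonneg _) (by positivity)
            _ = _ := by ring
      _ = (plabs D L).card * (16 * (X * Z)) := by rw [Finset.sum_const, nsmul_eq_mul]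
      _ ≤ _ := mul_le_mul_of_nonneg_right (card_plabs_le D L) (by positivity)
  unfold CB
  calc _ ≤ (D * L) * (4 * (X * Z)) + (D * D * L) * (16 * (X * Z)) := add_le_add s1 s2
    _ = _ := by ring

/-! ### Sizes -/

/-- `U - 1`, a single site -/
def yyS (k : Lab D L → G) : Lab D L → Mt N := fun a => mt (k a) - 1

/-- the size of a spin -/
def nrmS (k : Lab D L → G) : ℝ := ‖yyS k‖

lemma nrmS_le {k : Lab D L → G} {s : ℝ} (hs : 0 ≤ s) : nrmS k ≤ s ↔ ∀ a, ‖mt (k a) - 1‖ ≤ s := by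
  unfold nrmS yyS
  rw [pi_norm_le_iff_of_nonneg hs]

lemma le_nrmS (k : Lab D L → G) (a : Lab D L) : ‖mt (k a) - 1‖ ≤ nrmS k :=
  norm_le_pi_norm (yyS k) a

lemma nrmS_nonneg (k : Lab D L → G) : 0 ≤ nrmS k := norm_nonneg _

lemma nrmS_one : nrmS (1 : Lab D L → G) = 0 := by
  refine le_antisymm ((nrmS_le le_rfl).2 fun a => ?_) (nrmS_nonneg _)
  simp

lemma norm_mt_mul_sub (g h : G) : ‖mt (g * h) - 1‖ ≤ ‖mt g - 1‖ + ‖mt h - 1‖ := by
  have e : mt (g * h) - 1 = (mt g - 1) * mt h + (mt h - 1) := by rw [mt_mul]; noncomm_ring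
  rw [e]
  refine (norm_add_le _ _).trans ?_
  rw [norm_mul_mt]

lemma norm_mt_inv_sub (g : G) : ‖mt g⁻¹ - 1‖ = ‖mt g - 1‖ := by
  have e : mt g - 1 = -(mt g * (mt g⁻¹ - 1)) := by
    rw [mul_sub, mul_one, mt_inv, mt_mul_star]; abel
  rw [e, norm_neg, norm_mt_mul]

lemma nrmS_mul (g h : Lab D L → G) : nrmS (g * h) ≤ nrmS g + nrmS h :=
  (nrmS_le (add_nonneg (nrmS_nonneg _) (nrmS_nonneg _))).2 fun a =>
    (norm_mt_mul_sub (g a) (h a)).trans (add_le_add (le_nrmS g a) (le_nrmS h a))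

lemma nrmS_inv (g : Lab D L → G) : nrmS g⁻¹ = nrmS g := by
  unfold nrmS yyS
  refine le_antisymm ?_ ?_
  · refine (pi_norm_le_iff_of_nonneg (norm_nonneg _)).2 fun a => ?_
    rw [Pi.inv_apply, norm_mt_inv_sub]
    exact norm_le_pi_norm (fun a => mt (g a) - 1) a
  · refine (pi_norm_le_iff_of_nonneg (norm_nonneg _)).2 fun a => ?_
    rw [← norm_mt_inv_sub]
    exact norm_le_pi_norm (fun a => mt (g⁻¹ a) - 1) a

lemma nrmS_bd (g : Lab D L → G) : nrmS g ≤ 2 * N + 1 := by
  refine (nrmS_le (by positivity)).2 fun a => ?_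
  have h := norm_mt_sub_one_sq (g a)
  have h2 : ‖mt (g a) - 1‖ ^ 2 ≤ (2 * N + 1) ^ 2 := by
    refine h.trans ?_
    have : (0 : ℝ) ≤ N := Nat.cast_nonneg _
    nlinarith
  exact abs_le_of_sq_le_sq' h2 (by positivity) |>.2

/-! ### Energy bounds -/

lemma nrm_sq_le_es (σ : Site D → Lab D L → G) (y : Site D) : nrmS (σ y) ^ 2 ≤ es σ y := by
  have h0 : 0 ≤ es σ y := es_nonneg σ y
  have h1 : nrmS (σ y) ≤ Real.sqrt (es σ y) := by
    refine (nrmS_le (Real.sqrt_nonneg _)).2 fun a => ?_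
    exact Real.le_sqrt_of_sq_le (Yf_le_es σ y a)
  calc nrmS (σ y) ^ 2 ≤ Real.sqrt (es σ y) ^ 2 := pow_le_pow_left₀ (nrmS_nonneg _) h1 2
    _ = _ := Real.sq_sqrt h0

lemma es_le_nrm (σ : Site D → Lab D L → G) (y : Site D) :
    es σ y ≤ (D * L) * nrmS (σ y) ^ 2 := by
  unfold es
  calc ∑ a : Lab D L, ‖Yf σ y a‖ ^ 2 ≤ ∑ a : Lab D L, nrmS (σ y) ^ 2 :=
        Finset.sum_le_sum fun a _ => pow_le_pow_left₀ (norm_nonneg _) (le_nrmS (σ y) a) 2
    _ = _ := by
        rw [Finset.sum_const, Finset.card_univ, nsmul_eq_mul, Fintype.card_prod,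
          Fintype.card_fin, Fintype.card_fin]
        push_cast; ring

lemma upperS (A : Finset (Site D)) (σ : Site D → Lab D L → G) :
    ∑ x ∈ Ns A, hx σ x ≤
      ((4 * D + 4) * ((D + 1) * (D * L)) + 1) * ∑ y ∈ clS A ∪ A, nrmS (σ y) ^ 2 := by
  have h1 : ∑ x ∈ Ns A, hx σ x ≤ (4 * D + 4) * ∑ x ∈ Ns A, (es σ x + ∑ i, es σ (x + ev i)) := by
    rw [Finset.mul_sum]
    exact Finset.sum_le_sum fun x _ => hx_le σ x
  have h2 := sum_sp_le (Ns A) (clS A ∪ A) (es σ) (es_nonneg σ) fun x hx y hy =>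
    Finset.mem_union_left _ (Finset.mem_biUnion.2 ⟨x, hx, hy⟩)
  have h3 : ∑ y ∈ clS A ∪ A, es σ y ≤ (D * L) * ∑ y ∈ clS A ∪ A, nrmS (σ y) ^ 2 := by
    rw [Finset.mul_sum]
    exact Finset.sum_le_sum fun y _ => es_le_nrm σ y
  have h4 : 0 ≤ ∑ y ∈ clS A ∪ A, nrmS (σ y) ^ 2 := Finset.sum_nonneg fun y _ => by positivity
  calc ∑ x ∈ Ns A, hx σ x ≤ (4 * D + 4) * ∑ x ∈ Ns A, (es σ x + ∑ i, es σ (x + ev i)) := h1
    _ ≤ (4 * D + 4) * (((D : ℝ) + 1) * ∑ y ∈ clS A ∪ A, es σ y) :=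
        mul_le_mul_of_nonneg_left h2 (by positivity)
    _ ≤ (4 * D + 4) * (((D : ℝ) + 1) * ((D * L) * ∑ y ∈ clS A ∪ A, nrmS (σ y) ^ 2)) := by
        refine mul_le_mul_of_nonneg_left (mul_le_mul_of_nonneg_left h3 ?_) ?_ <;> positivity
    _ ≤ _ := by nlinarith

lemma coerS (A : Finset (Site D)) (σ : Site D → Lab D L → G) :
    lam0 L / 2 * ∑ y ∈ A, nrmS (σ y) ^ 2 ≤ ∑ x ∈ Ns A, hx σ x := by
  have hl : 0 ≤ lam0 L := by
    unfold lam0
    have := Real.cos_le_one (Real.pi / (2 * L + 1))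
    linarith
  calc lam0 L / 2 * ∑ y ∈ A, nrmS (σ y) ^ 2 ≤ ∑ y ∈ A, hx σ y := by
        rw [Finset.mul_sum]
        refine Finset.sum_le_sum fun y _ => ?_
        refine le_trans ?_ (hx_ge (vcN N D L) σ y)
        exact mul_le_mul_of_nonneg_left (nrm_sq_le_es σ y) (by positivity)
    _ ≤ _ := Finset.sum_le_sum_of_subset_of_nonneg (fun x hx => mem_Ns.2 (Or.inl hx))
        fun x _ _ => hx_nonneg σ x

/-! ### Measurability -/

section meas

instance scM : SecondCountableTopology (Mt N) :=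
  inferInstanceAs (SecondCountableTopology (Fin N → Fin N → ℂ))

instance scU : SecondCountableTopology (UU N) :=
  TopologicalSpace.Subtype.secondCountableTopology _

instance scG : SecondCountableTopology G := TopologicalSpace.Subtype.secondCountableTopology _

variable [MeasurableSpace G] [BorelSpace G]

lemma cont_mt : Continuous (mt : G → Mt N) := by
  unfold mt
  exact continuous_subtype_val.comp continuous_subtype_val

lemma meas2 : Measurable fun p : G × G => ‖mt p.1 - 1 - (mt p.2 - 1)‖ :=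
  (continuous_norm.comp (((cont_mt.comp continuous_fst).sub continuous_const).sub
    ((cont_mt.comp continuous_snd).sub continuous_const))).measurable

lemma meas4 : Measurable fun q : (G × G) × (G × G) =>
    ‖mt q.1.1 * mt q.1.2 - mt q.2.1 * mt q.2.2‖ := by
  refine (continuous_norm.comp (Continuous.sub ?_ ?_)).measurable
  · exact (cont_mt.comp (continuous_fst.comp continuous_fst)).mul
      (cont_mt.comp (continuous_snd.comp continuous_fst))
  · exact (cont_mt.comp (continuous_fst.comp continuous_snd)).mul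
      (cont_mt.comp (continuous_snd.comp continuous_snd))

lemma meas_norm1 : Measurable fun g : G => ‖mt g - 1‖ :=
  (continuous_norm.comp (cont_mt.sub continuous_const)).measurable

lemma meas_nrmS : Measurable (nrmS : (Lab D L → G) → ℝ) := by
  refine measurable_of_Iic fun s => ?_
  by_cases hs : 0 ≤ s
  · have : nrmS ⁻¹' Set.Iic s = ⋂ a : Lab D L, {k : Lab D L → G | ‖mt (k a) - 1‖ ≤ s} := by
      ext k
      rw [Set.mem_preimage, Set.mem_Iic, nrmS_le hs]
      simp
    rw [this]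
    exact MeasurableSet.iInter fun a =>
      measurableSet_le (meas_norm1.comp (measurable_pi_apply a)) measurable_const
  · have : nrmS ⁻¹' Set.Iic s = (∅ : Set (Lab D L → G)) := by
      ext k
      simp only [Set.mem_preimage, Set.mem_Iic, Set.mem_empty_iff_false, iff_false, not_le]
      exact lt_of_lt_of_le (not_le.1 hs) (nrmS_nonneg k)
    rw [this]
    exact MeasurableSet.empty

lemma meas_coord (y : Site D) (a : Lab D L) :
    Measurable fun σ : Site D → Lab D L → G => σ y a :=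
  (measurable_pi_apply a).comp (measurable_pi_apply y)

lemma meas_Pq (x : Site D) (p : (Fin D × Fin D) × Fin L) :
    Measurable fun σ : Site D → Lab D L → G => ‖Pq σ x p‖ := by
  have h2 : Measurable fun σ : Site D → Lab D L → G =>
      ((σ x (p.1.1, p.2), σ (x + ev p.1.1) (p.1.2, p.2)),
        (σ x (p.1.2, p.2), σ (x + ev p.1.2) (p.1.1, p.2))) :=
    ((meas_coord _ _).prodMk (meas_coord _ _)).prodMk ((meas_coord _ _).prodMk (meas_coord _ _))
  unfold Pq
  have h3 := Measurable.comp (g := fun q : (G × G) × (G × G) =>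
      ‖mt q.1.1 * mt q.1.2 - mt q.2.1 * mt q.2.2‖) meas4 h2
  simp only [Function.comp_def] at h3
  exact h3

lemma meas_dv (x : Site D) (a : Lab D L) :
    Measurable fun σ : Site D → Lab D L → G => ‖dv (Yf σ) x a‖ := by
  unfold dv low
  by_cases h : (a.2 : ℕ) = 0
  · simp only [h, dite_true, sub_zero]
    exact meas_norm1.comp (meas_coord x a)
  · simp only [h, dite_false]
    unfold Yf
    have h2 : Measurable fun σ : Site D → Lab D L → G =>
        (σ x a, σ x (a.1, ⟨(a.2 : ℕ) - 1, by omega⟩)) := (meas_coord x a).prodMk (meas_coord x _)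
    have h3 := Measurable.comp (g := fun p : G × G => ‖mt p.1 - 1 - (mt p.2 - 1)‖) meas2 h2
    simp only [Function.comp_def] at h3
    exact h3

lemma meas_hx (x : Site D) : Measurable fun σ : Site D → Lab D L → G => hx σ x := by
  unfold hx
  have h1 : Measurable fun σ : Site D → Lab D L → G => ∑ a, ‖dv (Yf σ) x a‖ ^ 2 :=
    Finset.measurable_fun_sum _ fun a _ => (meas_dv x a).pow_const 2
  have h2 : Measurable fun σ : Site D → Lab D L → G => ∑ p ∈ plabs D L, ‖Pq σ x p‖ ^ 2 :=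
    Finset.measurable_fun_sum _ fun p _ => (meas_Pq x p).pow_const 2
  exact (h1.const_mul _).add (h2.const_mul _)

end meas

lemma hx_bd (σ : Site D → Lab D L → G) (x : Site D) :
    |hx σ x| ≤ (4 * D + 4) * ((D + 1) * (4 * N * (D * L))) := by
  rw [abs_of_nonneg (hx_nonneg σ x)]
  refine (hx_le σ x).trans (mul_le_mul_of_nonneg_left ?_ (by positivity))
  have h1 := es_le σ x
  have h2 : ∑ i : Fin D, es σ (x + ev i) ≤ D * (4 * N * (D * L)) := by
    calc ∑ i : Fin D, es σ (x + ev i) ≤ ∑ i : Fin D, (4 * N * (D * L) : ℝ) :=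
          Finset.sum_le_sum fun i _ => es_le σ _
      _ = _ := by rw [Finset.sum_const, Finset.card_univ, Fintype.card_fin, nsmul_eq_mul]
  linarith

lemma hx_loc (x : Site D) (σ σ' : Site D → Lab D L → G) (h : ∀ y ∈ spS x, σ y = σ' y) :
    hx σ x = hx σ' x := by
  have h0 : σ x = σ' x := h x (mem_spS.2 (Or.inl rfl))
  have h1 : ∀ i, σ (x + ev i) = σ' (x + ev i) := fun i => h _ (mem_spS.2 (Or.inr ⟨i, rfl⟩))
  unfold hx dv Pq
  have h2 : Yf σ x = Yf σ' x := by unfold Yf; rw [h0]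
  simp only [h0, h1, h2]

end

end Pool.Agent.N990
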